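import Mathlib

set_option autoImplicit false
set_option linter.unusedSimpArgs false
set_option linter.unusedVariables false

/-!
# Leavitt families for L_2 and L_{2-} in a ring, and the correspondence between them
-/

namespace Pool.Agent.Helper7.LL

/-- elements of a ring which satisfy the relations of L_2 -/
@[ext] structure LF (R : Type*) [Ring R] where
  x : R
  x' : R
  y : R
  y' : R
  xx : x' * x = 1
  yy : y' * y = 1
  xy : x' * y = 0
  yx : y' * x = 0
  sum : x * x' + y * y' = 1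

/-- reduced families for L_{2-}: `f, d` are the loops at `v`, `G = g p`, `p = h + l + m`, `q = n + o` -/
@[ext] structure RF (R : Type*) [Ring R] where
  v : R
  u : R
  w : R
  f : R
  f' : R
  d : R
  d' : R
  G : R
  G' : R
  p : R
  p' : R
  q : R
  q' : R
  vu : v * u = 0
  uv : u * v = 0
  vw : v * w = 0
  wv : w * v = 0
  uw : u * w = 0
  wu : w * u = 0
  one : v + u + w = 1
  fv : f * v = f
  vf' : v * f' = f'
  dv : d * v = d
  vd' : v * d' = d'
  ff : f' * f = v
  fd : f' * d = 0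
  fG : f' * G = 0
  df : d' * f = 0
  dd : d' * d = v
  dG : d' * G = 0
  Gf : G' * f = 0
  Gd : G' * d = 0
  GG : G' * G = 1
  vsum : f * f' + d * d' + G * G' = v
  pp : p' * p = 1
  pu : p * p' = u
  qv : q * v = 0
  vq' : v * q' = 0
  qq : q' * q = u + w
  qw : q * q' = w

section

variable {R : Type*} [Ring R]

lemma ra {a b c : R} (h : a * b = c) (z : R) : a * (b * z) = c * z := by rw [← mul_assoc, h]

namespace RF

variable (F : RF R)

lemma vv : F.v * F.v = F.v := by
  have h := congrArg (F.v * ·) F.one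
  simp only [mul_add, F.vu, F.vw, add_zero, mul_one] at h
  exact h

lemma uu : F.u * F.u = F.u := by
  have h := congrArg (F.u * ·) F.one
  simp only [mul_add, F.uv, F.uw, add_zero, zero_add, mul_one] at h
  exact h

lemma ww : F.w * F.w = F.w := by
  have h := congrArg (F.w * ·) F.one
  simp only [mul_add, F.wv, F.wu, zero_add, mul_one] at h
  exact h

lemma vf : F.v * F.f = F.f := by
  rw [← F.vsum]
  simp only [add_mul, mul_assoc, F.ff, F.df, F.Gf, mul_zero, add_zero, F.fv]

lemma vd : F.v * F.d = F.d := by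
  rw [← F.vsum]
  simp only [add_mul, mul_assoc, F.fd, F.dd, F.Gd, mul_zero, add_zero, zero_add, F.dv]

lemma vG : F.v * F.G = F.G := by
  rw [← F.vsum]
  simp only [add_mul, mul_assoc, F.fG, F.dG, F.GG, mul_zero, zero_add, mul_one]

lemma f'v : F.f' * F.v = F.f' := by
  rw [← F.vsum]
  simp only [mul_add, ← mul_assoc, F.ff, F.fd, F.fG, zero_mul, add_zero, F.vf']

lemma d'v : F.d' * F.v = F.d' := by
  rw [← F.vsum]
  simp only [mul_add, ← mul_assoc, F.df, F.dd, F.dG, zero_mul, add_zero, zero_add, F.vd']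

lemma G'v : F.G' * F.v = F.G' := by
  rw [← F.vsum]
  simp only [mul_add, ← mul_assoc, F.Gf, F.Gd, F.GG, zero_mul, zero_add, one_mul]

lemma up : F.u * F.p = F.p := by rw [← F.pu, mul_assoc, F.pp, mul_one]

lemma p'u : F.p' * F.u = F.p' := by rw [← F.pu, ← mul_assoc, F.pp, one_mul]

lemma vp : F.v * F.p = 0 := by rw [← F.up, ← mul_assoc, F.vu, zero_mul]

lemma wp : F.w * F.p = 0 := by rw [← F.up, ← mul_assoc, F.wu, zero_mul]

lemma p'v : F.p' * F.v = 0 := by rw [← F.p'u, mul_assoc, F.uv, mul_zero]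

lemma p'w : F.p' * F.w = 0 := by rw [← F.p'u, mul_assoc, F.uw, mul_zero]

lemma quw : F.q * (F.u + F.w) = F.q := by
  have h : F.u + F.w = 1 - F.v := by rw [← F.one]; abel
  rw [h, mul_sub, mul_one, F.qv, sub_zero]

lemma uwq' : (F.u + F.w) * F.q' = F.q' := by
  have h : F.u + F.w = 1 - F.v := by rw [← F.one]; abel
  rw [h, sub_mul, one_mul, F.vq', sub_zero]

lemma wq : F.w * F.q = F.q := by rw [← F.qw, mul_assoc, F.qq, F.quw]

lemma q'w : F.q' * F.w = F.q' := by rw [← F.qw, ← mul_assoc, F.qq, F.uwq']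

lemma vq : F.v * F.q = 0 := by rw [← F.wq, ← mul_assoc, F.vw, zero_mul]

lemma uq : F.u * F.q = 0 := by rw [← F.wq, ← mul_assoc, F.uw, zero_mul]

lemma q'v : F.q' * F.v = 0 := by rw [← F.q'w, mul_assoc, F.wv, mul_zero]

lemma q'u : F.q' * F.u = 0 := by rw [← F.q'w, mul_assoc, F.wu, mul_zero]

lemma p'q : F.p' * F.q = 0 := by rw [← F.p'u, mul_assoc, F.uq, mul_zero]

lemma q'p : F.q' * F.p = 0 := by rw [← F.q'w, mul_assoc, F.wp, mul_zero]

lemma fuw : F.f * (F.u + F.w) = 0 := by
  rw [← F.fv, mul_assoc, mul_add, F.vu, F.vw, add_zero, mul_zero]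

lemma uwf' : (F.u + F.w) * F.f' = 0 := by
  rw [← F.vf', ← mul_assoc, add_mul, F.uv, F.wv, add_zero, zero_mul]

lemma uwf : (F.u + F.w) * F.f = 0 := by
  rw [← F.vf, ← mul_assoc, add_mul, F.uv, F.wv, add_zero, zero_mul]

lemma f'uw : F.f' * (F.u + F.w) = 0 := by
  rw [← F.f'v, mul_assoc, mul_add, F.vu, F.vw, add_zero, mul_zero]

lemma uwd : (F.u + F.w) * F.d = 0 := by
  rw [← F.vd, ← mul_assoc, add_mul, F.uv, F.wv, add_zero, zero_mul]

lemma d'uw : F.d' * (F.u + F.w) = 0 := by
  rw [← F.d'v, mul_assoc, mul_add, F.vu, F.vw, add_zero, mul_zero]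

lemma uwG : (F.u + F.w) * F.G = 0 := by
  rw [← F.vG, ← mul_assoc, add_mul, F.uv, F.wv, add_zero, zero_mul]

lemma G'uw : F.G' * (F.u + F.w) = 0 := by
  rw [← F.G'v, mul_assoc, mul_add, F.vu, F.vw, add_zero, mul_zero]

lemma uwuw : (F.u + F.w) * (F.u + F.w) = F.u + F.w := by
  rw [add_mul, mul_add, mul_add, F.uu, F.uw, F.wu, F.ww]; abel

end RF

/-! ### from L_{2-} to L_2, with a base family -/

section fwd

variable (B : LF R) (F : RF R)

/-- auxiliary element -/
def Qf : R := B.x * F.G' + B.y * (F.d' + (F.u + F.w))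
/-- auxiliary element -/
def Qf' : R := F.G * B.x' + (F.d + (F.u + F.w)) * B.y'
/-- auxiliary element -/
def Pf : R := B.x * Qf B F + B.y * F.f'
/-- auxiliary element -/
def Pf' : R := Qf' B F * B.x' + F.f * B.y'

lemma Qf_Qf' : Qf B F * Qf' B F = 1 := by
  have h1 : (F.d' + (F.u + F.w)) * (F.d + (F.u + F.w)) = 1 := by
    have h1' : F.d' * (F.u + F.w) = 0 := F.d'uw
    have h2' : (F.u + F.w) * F.d = 0 := F.uwd
    have h3' := F.uwuw
    have h4' : F.v + (F.u + F.w) = 1 := by rw [← add_assoc, F.one]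
    revert h1' h2' h3' h4'
    generalize F.u + F.w = s
    intro h1' h2' h3' h4'
    rw [add_mul, mul_add, mul_add, F.dd, h1', h2', h3', add_zero, zero_add, h4']
  have h2 : F.G' * (F.d + (F.u + F.w)) = 0 := by rw [mul_add, F.Gd, F.G'uw, add_zero]
  have h3 : (F.d' + (F.u + F.w)) * F.G = 0 := by rw [add_mul, F.dG, F.uwG, add_zero]
  calc Qf B F * Qf' B F
      = B.x * (F.G' * F.G) * B.x' + B.x * (F.G' * (F.d + (F.u + F.w))) * B.y' +
        B.y * ((F.d' + (F.u + F.w)) * F.G) * B.x' +
        B.y * ((F.d' + (F.u + F.w)) * (F.d + (F.u + F.w))) * B.y' := by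
        unfold Qf Qf'; noncomm_ring
    _ = B.x * B.x' + B.y * B.y' := by rw [h1, h2, h3, F.GG]; noncomm_ring
    _ = 1 := B.sum

lemma Qf'_Qf : Qf' B F * Qf B F = 1 - F.f * F.f' := by
  have h1 : (F.d + (F.u + F.w)) * (F.d' + (F.u + F.w)) = F.d * F.d' + (F.u + F.w) := by
    have e1 : F.d * (F.u + F.w) = 0 := by
      rw [← F.dv, mul_assoc, mul_add, F.vu, F.vw, add_zero, mul_zero]
    have e2 : (F.u + F.w) * F.d' = 0 := by
      rw [← F.vd', ← mul_assoc, add_mul, F.uv, F.wv, add_zero, zero_mul]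
    have h3' := F.uwuw
    revert e1 e2 h3'
    generalize F.u + F.w = s
    intro e1 e2 h3'
    rw [add_mul, mul_add, mul_add, e1, e2, h3', add_zero, zero_add]
  calc Qf' B F * Qf B F
      = F.G * (B.x' * B.x) * F.G' + F.G * (B.x' * B.y) * (F.d' + (F.u + F.w)) +
        (F.d + (F.u + F.w)) * (B.y' * B.x) * F.G' +
        (F.d + (F.u + F.w)) * (B.y' * B.y) * (F.d' + (F.u + F.w)) := by
        unfold Qf Qf'; noncomm_ring
    _ = F.G * F.G' + (F.d + (F.u + F.w)) * (F.d' + (F.u + F.w)) := by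
        rw [B.xx, B.xy, B.yx, B.yy]; noncomm_ring
    _ = F.G * F.G' + (F.d * F.d' + (F.u + F.w)) := by rw [h1]
    _ = (F.f * F.f' + F.d * F.d' + F.G * F.G') + F.u + F.w - F.f * F.f' := by abel
    _ = 1 - F.f * F.f' := by rw [F.vsum, F.one]

lemma Qf_f : Qf B F * F.f = 0 := by
  unfold Qf
  simp only [add_mul, mul_assoc, F.Gf, F.df, mul_zero, zero_add]
  have := F.uwf
  rw [add_mul] at this
  rw [this, mul_zero]

lemma f'_Qf' : F.f' * Qf' B F = 0 := by
  unfold Qf'
  have h := F.f'uw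
  revert h
  generalize F.u + F.w = s
  intro h
  rw [mul_add, ← mul_assoc, ← mul_assoc, F.fG, mul_add, F.fd, h]; simp

lemma Pf'_Pf : Pf' B F * Pf B F = 1 := by
  calc Pf' B F * Pf B F
      = Qf' B F * (B.x' * B.x) * Qf B F + Qf' B F * (B.x' * B.y) * F.f' +
        F.f * (B.y' * B.x) * Qf B F + F.f * (B.y' * B.y) * F.f' := by
        unfold Pf Pf'; noncomm_ring
    _ = Qf' B F * Qf B F + F.f * F.f' := by rw [B.xx, B.xy, B.yx, B.yy]; noncomm_ring
    _ = 1 := by rw [Qf'_Qf]; abel

lemma Pf_Pf' : Pf B F * Pf' B F = B.x * B.x' + B.y * F.v * B.y' := by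
  calc Pf B F * Pf' B F
      = B.x * (Qf B F * Qf' B F) * B.x' + B.x * (Qf B F * F.f) * B.y' +
        B.y * (F.f' * Qf' B F) * B.x' + B.y * (F.f' * F.f) * B.y' := by
        unfold Pf Pf'; noncomm_ring
    _ = _ := by rw [Qf_Qf', Qf_f, f'_Qf', F.ff]; noncomm_ring

lemma Pf'_y : Pf' B F * B.y = F.f := by
  unfold Pf'
  rw [add_mul, mul_assoc, mul_assoc, B.xy, B.yy]; simp

lemma y'_Pf : B.y' * Pf B F = F.f' := by
  unfold Pf
  rw [mul_add, ← mul_assoc, ← mul_assoc, B.yx, B.yy]; simp

/-- `y'` of the new family -/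
def tau : R := Pf B F * F.p' + B.y * F.q'
/-- `y` of the new family -/
def tau' : R := F.p * Pf' B F + F.q * B.y'

lemma tau_v : tau B F * F.v = 0 := by
  unfold tau
  rw [add_mul, mul_assoc, mul_assoc, F.p'v, F.q'v]; simp

lemma v_tau' : F.v * tau' B F = 0 := by
  unfold tau'
  rw [mul_add, ← mul_assoc, ← mul_assoc, F.vp, F.vq]; simp

lemma tau_tau' : tau B F * tau' B F = 1 := by
  calc tau B F * tau' B F
      = Pf B F * (F.p' * F.p) * Pf' B F + Pf B F * (F.p' * F.q) * B.y' +
        B.y * (F.q' * F.p) * Pf' B F + B.y * (F.q' * F.q) * B.y' := by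
        unfold tau tau'; noncomm_ring
    _ = Pf B F * Pf' B F + B.y * (F.u + F.w) * B.y' := by
        rw [F.pp, F.p'q, F.q'p, F.qq]; noncomm_ring
    _ = B.x * B.x' + B.y * (F.v + F.u + F.w) * B.y' := by rw [Pf_Pf']; noncomm_ring
    _ = 1 := by rw [F.one, mul_one, B.sum]

lemma tau'_tau : tau' B F * tau B F = F.u + F.w := by
  have h1 : F.f * F.q' = 0 := by rw [← F.fv, mul_assoc, F.vq', mul_zero]
  have h2 : F.q * F.f' = 0 := by rw [← F.vf', ← mul_assoc, F.qv, zero_mul]
  calc tau' B F * tau B F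
      = F.p * (Pf' B F * Pf B F) * F.p' + F.p * ((Pf' B F * B.y) * F.q') +
        (F.q * (B.y' * Pf B F)) * F.p' + F.q * (B.y' * B.y) * F.q' := by
        unfold tau tau'; noncomm_ring
    _ = F.u + F.w := by
        rw [Pf'_Pf, Pf'_y, y'_Pf, B.yy, h1, h2, mul_one, mul_one, F.pu, F.qw]; simp

/-- `x'` of the new family -/
def lam : R := F.f' + tau' B F * (F.d' + tau' B F * F.G')
/-- `x` of the new family -/
def lam' : R := F.f + (F.d + F.G * tau B F) * tau B F

lemma tau_f' : tau B F * F.f' = 0 := by rw [← F.vf', ← mul_assoc, tau_v, zero_mul]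
lemma tau_d' : tau B F * F.d' = 0 := by rw [← F.vd', ← mul_assoc, tau_v, zero_mul]
lemma f_tau' : F.f * tau' B F = 0 := by rw [← F.fv, mul_assoc, v_tau', mul_zero]
lemma d_tau' : F.d * tau' B F = 0 := by rw [← F.dv, mul_assoc, v_tau', mul_zero]
lemma f'_tau' : F.f' * tau' B F = 0 := by rw [← F.f'v, mul_assoc, v_tau', mul_zero]
lemma d'_tau' : F.d' * tau' B F = 0 := by rw [← F.d'v, mul_assoc, v_tau', mul_zero]
lemma G'_tau' : F.G' * tau' B F = 0 := by rw [← F.G'v, mul_assoc, v_tau', mul_zero]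
lemma tau_f : tau B F * F.f = 0 := by rw [← F.vf, ← mul_assoc, tau_v, zero_mul]
lemma tau_d : tau B F * F.d = 0 := by rw [← F.vd, ← mul_assoc, tau_v, zero_mul]
lemma tau_G : tau B F * F.G = 0 := by rw [← F.vG, ← mul_assoc, tau_v, zero_mul]

lemma lam_lam' : lam B F * lam' B F = 1 := by
  calc lam B F * lam' B F
      = F.f' * F.f + (F.f' * F.d) * tau B F + (F.f' * F.G) * tau B F * tau B F +
        tau' B F * ((F.d' * F.f) + (F.d' * F.d) * tau B F + (F.d' * F.G) * tau B F * tau B F) +
        tau' B F * tau' B F * ((F.G' * F.f) + (F.G' * F.d) * tau B F +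
          (F.G' * F.G) * tau B F * tau B F) := by
        unfold lam lam'; noncomm_ring
    _ = F.v + tau' B F * (F.v * tau B F) + tau' B F * (tau' B F * tau B F) * tau B F := by
        rw [F.ff, F.fd, F.fG, F.df, F.dd, F.dG, F.Gf, F.Gd, F.GG]; noncomm_ring
    _ = F.v + tau' B F * ((F.v + F.u + F.w) * tau B F) := by rw [tau'_tau]; noncomm_ring
    _ = F.v + (F.u + F.w) := by rw [F.one, one_mul, tau'_tau]
    _ = 1 := by rw [← add_assoc, F.one]

lemma lam'_lam : lam' B F * lam B F = F.v := by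
  have e : lam' B F * tau' B F = F.d + F.G * tau B F := by
    unfold lam'
    rw [add_mul, f_tau', zero_add, mul_assoc, tau_tau', mul_one]
  have e2 : (F.d + F.G * tau B F) * tau' B F = F.G := by
    rw [add_mul, d_tau', zero_add, mul_assoc, tau_tau', mul_one]
  have e3 : lam' B F * F.f' = F.f * F.f' := by
    unfold lam'
    rw [add_mul, mul_assoc _ (tau B F), tau_f', mul_zero, add_zero]
  have e4 : (F.d + F.G * tau B F) * F.d' = F.d * F.d' := by
    rw [add_mul, mul_assoc, tau_d', mul_zero, add_zero]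
  calc lam' B F * lam B F
      = lam' B F * F.f' + (lam' B F * tau' B F) * F.d' +
        (lam' B F * tau' B F) * tau' B F * F.G' := by
        conv_lhs => rw [lam]
        noncomm_ring
    _ = F.v := by rw [e, e2, e3, e4, F.vsum]

lemma lam_tau' : lam B F * tau' B F = 0 := by
  calc lam B F * tau' B F
      = F.f' * tau' B F + tau' B F * (F.d' * tau' B F) +
        tau' B F * tau' B F * (F.G' * tau' B F) := by unfold lam; noncomm_ring
    _ = 0 := by rw [f'_tau', d'_tau', G'_tau']; simp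

lemma tau_lam' : tau B F * lam' B F = 0 := by
  calc tau B F * lam' B F
      = tau B F * F.f + (tau B F * F.d) * tau B F + (tau B F * F.G) * tau B F * tau B F := by
        unfold lam'; noncomm_ring
    _ = 0 := by rw [tau_f, tau_d, tau_G]; simp

/-- the L_2 family of an L_{2-} family -/
def fwd : LF R where
  x := lam' B F
  x' := lam B F
  y := tau' B F
  y' := tau B F
  xx := lam_lam' B F
  yy := tau_tau' B F
  xy := lam_tau' B F
  yx := tau_lam' B F
  sum := by rw [lam'_lam, tau'_tau, ← add_assoc, F.one]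

end fwd

/-! ### from L_2 to L_{2-}, with a base family -/

section bwd

variable (B A : LF R)

/-- auxiliary element -/
def Qb : R := B.x * (A.y' * A.y' * A.x') + B.y * (A.x * A.x' * A.y' * A.x' + A.y * A.y')
/-- auxiliary element -/
def Qb' : R := (A.x * A.y * A.y) * B.x' + (A.x * A.y * A.x * A.x' + A.y * A.y') * B.y'
/-- auxiliary element -/
def Pb : R := B.x * Qb B A + B.y * (A.x * A.x' * A.x')
/-- auxiliary element -/
def Pb' : R := Qb' B A * B.x' + (A.x * A.x * A.x') * B.y'

lemma A_xyy : A.x * (A.x * A.x' + A.y * A.y') * A.x' = A.x * A.x' := by rw [A.sum, mul_one]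

lemma x'r (z : R) : A.x' * (A.x * z) = z := by rw [← mul_assoc, A.xx, one_mul]
lemma y'r (z : R) : A.y' * (A.y * z) = z := by rw [← mul_assoc, A.yy, one_mul]
lemma xyr (z : R) : A.x' * (A.y * z) = 0 := by rw [← mul_assoc, A.xy, zero_mul]
lemma yxr (z : R) : A.y' * (A.x * z) = 0 := by rw [← mul_assoc, A.yx, zero_mul]

lemma Qb_Qb' : Qb B A * Qb' B A = 1 := by
  have h : A.x * A.x' + A.y * A.y' = 1 := A.sum
  calc Qb B A * Qb' B A = B.x * B.x' + B.y * (A.x * A.x' + A.y * A.y') * B.y' := by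
        unfold Qb Qb'
        simp only [mul_add, add_mul, mul_assoc, A.xx, A.yy, A.xy, A.yx, x'r, y'r, xyr, yxr,
          mul_zero, zero_mul, add_zero, zero_add, mul_one]
    _ = 1 := by rw [h, mul_one, B.sum]


lemma yy_idem : A.y * A.y' * (A.y * A.y') = A.y * A.y' := by
  rw [mul_assoc, ← mul_assoc A.y', A.yy, one_mul]

lemma Qb'_Qb : Qb' B A * Qb B A = 1 - A.x * A.x * A.x' * A.x' := by
  have h : A.x * A.x' + A.y * A.y' = 1 := A.sum
  have e : Qb' B A * Qb B A = A.x * A.y * (A.x * A.x' + A.y * A.y') * A.y' * A.x' +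
      A.y * A.y' := by
    unfold Qb Qb'
    simp only [mul_add, add_mul, mul_assoc, A.xx, A.yy, A.xy, A.yx, B.xx, B.yy, B.xy, B.yx, x'r,
      y'r, xyr, yxr, mul_zero, zero_mul, add_zero, zero_add, mul_one]
    abel
  have e2 : A.x * A.y * (A.x * A.x' + A.y * A.y') * A.y' * A.x' =
      A.x * (A.x * A.x' + A.y * A.y') * A.x' - A.x * A.x * A.x' * A.x' := by
    have hy : A.y * A.y' = 1 - A.x * A.x' := by rw [← h]; abel
    calc A.x * A.y * (A.x * A.x' + A.y * A.y') * A.y' * A.x'
        = A.x * (A.y * A.y') * A.x' := by rw [h]; noncomm_ring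
      _ = _ := by rw [h, hy]; noncomm_ring
  rw [e, e2, h, mul_one, sub_add_eq_add_sub, h]

lemma Qb_f : Qb B A * (A.x * A.x * A.x') = 0 := by
  unfold Qb
  simp only [add_mul, mul_assoc, A.yx, x'r, y'r, xyr, yxr, mul_zero, zero_mul, add_zero]

lemma f'_Qb' : A.x * A.x' * A.x' * Qb' B A = 0 := by
  unfold Qb'
  simp only [mul_add, add_mul, mul_assoc, A.xy, x'r, y'r, xyr, yxr, mul_zero, zero_mul, add_zero]

lemma Pb'_Pb : Pb' B A * Pb B A = 1 := by
  calc Pb' B A * Pb B A
      = Qb' B A * (B.x' * B.x) * Qb B A + Qb' B A * (B.x' * B.y) * (A.x * A.x' * A.x') +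
        (A.x * A.x * A.x') * (B.y' * B.x) * Qb B A +
        (A.x * A.x * A.x') * (B.y' * B.y) * (A.x * A.x' * A.x') := by
        unfold Pb Pb'; noncomm_ring
    _ = Qb' B A * Qb B A + (A.x * A.x * A.x') * (A.x * A.x' * A.x') := by
        rw [B.xx, B.xy, B.yx, B.yy]; noncomm_ring
    _ = 1 := by
        rw [Qb'_Qb]
        simp only [mul_assoc, x'r]
        abel

lemma Pb_Pb' : Pb B A * Pb' B A = B.x * B.x' + B.y * (A.x * A.x') * B.y' := by
  calc Pb B A * Pb' B A
      = B.x * (Qb B A * Qb' B A) * B.x' + B.x * (Qb B A * (A.x * A.x * A.x')) * B.y' +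
        B.y * (A.x * A.x' * A.x' * Qb' B A) * B.x' +
        B.y * ((A.x * A.x' * A.x') * (A.x * A.x * A.x')) * B.y' := by
        unfold Pb Pb'; noncomm_ring
    _ = _ := by
        rw [Qb_Qb', Qb_f, f'_Qb']
        simp only [mul_assoc, x'r, mul_zero, zero_mul, add_zero, mul_one, one_mul]

lemma Pb'_y : Pb' B A * B.y = A.x * A.x * A.x' := by
  unfold Pb'
  rw [add_mul, mul_assoc, mul_assoc _ B.y', B.xy, B.yy]; simp

lemma y'_Pb : B.y' * Pb B A = A.x * A.x' * A.x' := by
  unfold Pb
  rw [mul_add, ← mul_assoc, ← mul_assoc, B.yx, B.yy]; simp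

/-- the L_{2-} family of an L_2 family -/
def bwd : RF R where
  v := A.x * A.x'
  u := A.y * Pb B A * Pb' B A * A.y'
  w := A.y * B.y * A.y * A.y' * B.y' * A.y'
  f := A.x * A.x * A.x'
  f' := A.x * A.x' * A.x'
  d := A.x * A.y * A.x * A.x'
  d' := A.x * A.x' * A.y' * A.x'
  G := A.x * A.y * A.y
  G' := A.y' * A.y' * A.x'
  p := A.y * Pb B A
  p' := Pb' B A * A.y'
  q := A.y * B.y * A.y * A.y'
  q' := A.y * A.y' * B.y' * A.y'
  vu := by simp only [mul_assoc, xyr, mul_zero]
  uv := by simp only [mul_assoc, yxr, mul_zero]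
  vw := by simp only [mul_assoc, xyr, mul_zero]
  wv := by simp only [mul_assoc, yxr, mul_zero]
  uw := by
    have h := Pb'_y B A
    calc A.y * Pb B A * Pb' B A * A.y' * (A.y * B.y * A.y * A.y' * B.y' * A.y')
        = A.y * Pb B A * Pb' B A * (A.y' * A.y) * B.y * A.y * A.y' * B.y' * A.y' := by
          noncomm_ring
      _ = A.y * Pb B A * (Pb' B A * B.y) * A.y * A.y' * B.y' * A.y' := by
          rw [A.yy]; noncomm_ring
      _ = 0 := by rw [h]; simp only [mul_assoc, xyr, mul_zero, zero_mul]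
  wu := by
    have h := y'_Pb B A
    calc A.y * B.y * A.y * A.y' * B.y' * A.y' * (A.y * Pb B A * Pb' B A * A.y')
        = A.y * B.y * A.y * A.y' * B.y' * (A.y' * A.y) * Pb B A * Pb' B A * A.y' := by
          noncomm_ring
      _ = A.y * B.y * A.y * A.y' * (B.y' * Pb B A) * Pb' B A * A.y' := by
          rw [A.yy]; noncomm_ring
      _ = 0 := by rw [h]; simp only [mul_assoc, yxr, mul_zero, zero_mul]
  one := by
    calc A.x * A.x' + A.y * Pb B A * Pb' B A * A.y' + A.y * B.y * A.y * A.y' * B.y' * A.y'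
        = A.x * A.x' + A.y * (Pb B A * Pb' B A + B.y * (A.y * A.y') * B.y') * A.y' := by
          noncomm_ring
      _ = A.x * A.x' + A.y * (B.x * B.x' + B.y * (A.x * A.x' + A.y * A.y') * B.y') * A.y' := by
          rw [Pb_Pb']; noncomm_ring
      _ = 1 := by rw [A.sum, mul_one, B.sum, mul_one, A.sum]
  fv := by simp only [mul_assoc, x'r]
  vf' := by simp only [mul_assoc, x'r]
  dv := by simp only [mul_assoc, x'r]
  vd' := by simp only [mul_assoc, x'r]
  ff := by simp only [mul_assoc, x'r]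
  fd := by simp only [mul_assoc, x'r, xyr, mul_zero]
  fG := by simp only [mul_assoc, x'r, xyr, A.xy, mul_zero]
  df := by simp only [mul_assoc, x'r, yxr, mul_zero]
  dd := by simp only [mul_assoc, x'r, y'r]
  dG := by simp only [mul_assoc, x'r, y'r, A.xy, mul_zero]
  Gf := by simp only [mul_assoc, x'r, yxr, mul_zero]
  Gd := by simp only [mul_assoc, x'r, y'r, yxr, mul_zero]
  GG := by simp only [mul_assoc, x'r, y'r, A.yy]
  vsum := by
    calc A.x * A.x * A.x' * (A.x * A.x' * A.x') +
          A.x * A.y * A.x * A.x' * (A.x * A.x' * A.y' * A.x') +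
          A.x * A.y * A.y * (A.y' * A.y' * A.x')
        = A.x * (A.x * A.x' + A.y * (A.x * A.x' + A.y * A.y') * A.y') * A.x' := by
          simp only [mul_assoc, x'r, mul_add, add_mul]
          abel
      _ = A.x * A.x' := by rw [A.sum, mul_one, A.sum, mul_one]
  pp := by
    calc Pb' B A * A.y' * (A.y * Pb B A) = Pb' B A * (A.y' * A.y) * Pb B A := by noncomm_ring
      _ = 1 := by rw [A.yy, mul_one, Pb'_Pb]
  pu := by noncomm_ring
  qv := by simp only [mul_assoc, yxr, mul_zero]
  vq' := by simp only [mul_assoc, xyr, mul_zero]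
  qq := by
    have h : A.y * Pb B A * Pb' B A * A.y' + A.y * B.y * A.y * A.y' * B.y' * A.y' =
        A.y * A.y' := by
      calc A.y * Pb B A * Pb' B A * A.y' + A.y * B.y * A.y * A.y' * B.y' * A.y'
          = A.y * (Pb B A * Pb' B A + B.y * (A.y * A.y') * B.y') * A.y' := by
            noncomm_ring
        _ = A.y * (B.x * B.x' + B.y * (A.x * A.x' + A.y * A.y') * B.y') * A.y' := by
            rw [Pb_Pb']; noncomm_ring
        _ = A.y * A.y' := by rw [A.sum, mul_one, B.sum, mul_one]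
    rw [h]
    calc A.y * A.y' * B.y' * A.y' * (A.y * B.y * A.y * A.y')
        = A.y * A.y' * B.y' * (A.y' * A.y) * B.y * A.y * A.y' := by noncomm_ring
      _ = A.y * A.y' * (B.y' * B.y) * A.y * A.y' := by rw [A.yy]; noncomm_ring
      _ = A.y * A.y' * (A.y * A.y') := by rw [B.yy]; noncomm_ring
      _ = A.y * A.y' := yy_idem A
  qw := by
    calc A.y * B.y * A.y * A.y' * (A.y * A.y' * B.y' * A.y')
        = A.y * B.y * (A.y * A.y' * (A.y * A.y')) * B.y' * A.y' := by noncomm_ring
      _ = _ := by rw [yy_idem]; noncomm_ring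

end bwd

/-! ### the two maps are inverse to each other -/

section inv

variable (B A : LF R) (F : RF R)

lemma Qb_fwd : Qb B (fwd B F) = Qf B F := by
  have h1 : lam B F = lam B F := rfl
  have e1 : lam' B F * tau' B F = F.d + F.G * tau B F := by
    unfold lam'
    rw [add_mul, f_tau', zero_add, mul_assoc, tau_tau', mul_one]
  have e1' : tau B F * lam B F = F.d' + tau' B F * F.G' := by
    unfold lam
    rw [mul_add, tau_f', zero_add, ← mul_assoc, tau_tau', one_mul]
  have e2' : tau B F * (F.d' + tau' B F * F.G') = F.G' := by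
    rw [mul_add, tau_d', zero_add, ← mul_assoc, tau_tau', one_mul]
  have e3 : F.v * (F.d' + tau' B F * F.G') = F.d' := by
    rw [mul_add, F.vd', ← mul_assoc, v_tau', zero_mul, add_zero]
  show B.x * (tau B F * tau B F * lam B F) + B.y * (lam' B F * lam B F * tau B F * lam B F +
    tau' B F * tau B F) = B.x * F.G' + B.y * (F.d' + (F.u + F.w))
  rw [lam'_lam, tau'_tau, mul_assoc (tau B F), e1', e2', mul_assoc F.v, e1', e3]

theorem bwd_fwd : bwd B (fwd B F) = F := by
  have e1 : lam' B F * tau' B F = F.d + F.G * tau B F := by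
    unfold lam'
    rw [add_mul, f_tau', zero_add, mul_assoc, tau_tau', mul_one]
  have e2 : (F.d + F.G * tau B F) * tau' B F = F.G := by
    rw [add_mul, d_tau', zero_add, mul_assoc, tau_tau', mul_one]
  have e1' : tau B F * lam B F = F.d' + tau' B F * F.G' := by
    unfold lam
    rw [mul_add, tau_f', zero_add, ← mul_assoc, tau_tau', one_mul]
  have e2' : tau B F * (F.d' + tau' B F * F.G') = F.G' := by
    rw [mul_add, tau_d', zero_add, ← mul_assoc, tau_tau', one_mul]
  have e3 : F.v * (F.d' + tau' B F * F.G') = F.d' := by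
    rw [mul_add, F.vd', ← mul_assoc, v_tau', zero_mul, add_zero]
  have e4 : (F.d + F.G * tau B F) * F.v = F.d := by
    rw [add_mul, F.dv, mul_assoc, tau_v, mul_zero, add_zero]
  have e5 : lam' B F * F.v = F.f := by
    unfold lam'
    rw [add_mul, F.fv, mul_assoc _ (tau B F), tau_v, mul_zero, add_zero]
  have e5' : F.v * lam B F = F.f' := by
    unfold lam
    rw [mul_add, F.vf', ← mul_assoc F.v, v_tau', zero_mul, add_zero]
  have hf : lam' B F * lam' B F * lam B F = F.f := by rw [mul_assoc, lam'_lam, e5]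
  have hf' : lam' B F * lam B F * lam B F = F.f' := by rw [lam'_lam, e5']
  have hQ := Qb_fwd B F
  have hP : Pb B (fwd B F) = Pf B F := by
    show B.x * Qb B (fwd B F) + B.y * (lam' B F * lam B F * lam B F) = _
    rw [hQ, hf']; rfl
  have hQ' : Qb' B (fwd B F) = Qf' B F := by
    show (lam' B F * tau' B F * tau' B F) * B.x' + (lam' B F * tau' B F * lam' B F * lam B F +
      tau' B F * tau B F) * B.y' = F.G * B.x' + (F.d + (F.u + F.w)) * B.y'
    rw [tau'_tau, e1, e2, mul_assoc _ (lam' B F), lam'_lam, e4]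
  have hP' : Pb' B (fwd B F) = Pf' B F := by
    show Qb' B (fwd B F) * B.x' + (lam' B F * lam' B F * lam B F) * B.y' = _
    rw [hQ', hf]; rfl
  have h2 : F.f * F.q' = 0 := by rw [← F.fv, mul_assoc, F.vq', mul_zero]
  have h3 : F.q * F.f' = 0 := by rw [← F.vf', ← mul_assoc, F.qv, zero_mul]
  have hp : tau' B F * Pf B F = F.p := by
    calc tau' B F * Pf B F = F.p * (Pf' B F * Pf B F) + F.q * (B.y' * Pf B F) := by
          unfold tau'; noncomm_ring
      _ = F.p := by rw [Pf'_Pf, y'_Pf, h3]; simp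
  have hp' : Pf' B F * tau B F = F.p' := by
    calc Pf' B F * tau B F = (Pf' B F * Pf B F) * F.p' + (Pf' B F * B.y) * F.q' := by
          unfold tau; noncomm_ring
      _ = F.p' := by rw [Pf'_Pf, Pf'_y, h2]; simp
  have hq : tau' B F * B.y * tau' B F * tau B F = F.q := by
    calc tau' B F * B.y * tau' B F * tau B F
        = (F.p * (Pf' B F * B.y) + F.q * (B.y' * B.y)) * (tau' B F * tau B F) := by
          conv_lhs => rw [tau']
          conv_rhs => rw [tau']
          noncomm_ring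
      _ = F.p * (F.f * (F.u + F.w)) + F.q * (F.u + F.w) := by
          rw [Pf'_y, B.yy, tau'_tau, mul_one, add_mul, mul_assoc]
      _ = F.q := by rw [F.fuw, F.quw]; simp
  have hq' : tau' B F * tau B F * B.y' * tau B F = F.q' := by
    calc tau' B F * tau B F * B.y' * tau B F
        = (tau' B F * tau B F) * ((B.y' * Pf B F) * F.p' + (B.y' * B.y) * F.q') := by
          conv_lhs => rw [tau]
          conv_rhs => rw [tau]
          noncomm_ring
      _ = ((F.u + F.w) * F.f') * F.p' + (F.u + F.w) * F.q' := by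
          rw [y'_Pf, B.yy, tau'_tau, one_mul, mul_add, mul_assoc]
      _ = F.q' := by rw [F.uwf', F.uwq']; simp
  apply RF.ext
  · exact lam'_lam B F
  · show tau' B F * Pb B (fwd B F) * Pb' B (fwd B F) * tau B F = F.u
    rw [hP, hP', hp, mul_assoc, hp', F.pu]
  · show tau' B F * B.y * tau' B F * tau B F * B.y' * tau B F = F.w
    have : tau' B F * B.y * tau' B F * tau B F * B.y' * tau B F =
        (tau' B F * B.y * tau' B F * tau B F) * (tau' B F * tau B F * B.y' * tau B F) := by
      have h4 : tau B F * (tau' B F * tau B F) = tau B F := by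
        rw [← mul_assoc, tau_tau', one_mul]
      calc tau' B F * B.y * tau' B F * tau B F * B.y' * tau B F
          = tau' B F * B.y * tau' B F * (tau B F * (tau' B F * tau B F)) * B.y' * tau B F := by
            rw [h4]
        _ = _ := by noncomm_ring
    rw [this, hq, hq', F.qw]
  · exact hf
  · exact hf'
  · show lam' B F * tau' B F * lam' B F * lam B F = F.d
    rw [mul_assoc (lam' B F * tau' B F), lam'_lam, e1, e4]
  · show lam' B F * lam B F * tau B F * lam B F = F.d'
    rw [lam'_lam, mul_assoc, e1', e3]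
  · show lam' B F * tau' B F * tau' B F = F.G
    rw [e1, e2]
  · show tau B F * tau B F * lam B F = F.G'
    rw [mul_assoc, e1', e2']
  · show tau' B F * Pb B (fwd B F) = F.p
    rw [hP, hp]
  · show Pb' B (fwd B F) * tau B F = F.p'
    rw [hP', hp']
  · exact hq
  · exact hq'

theorem fwd_bwd : fwd B (bwd B A) = A := by
  have hQ : Qf B (bwd B A) = Qb B A := by
    have h : (bwd B A).u + (bwd B A).w = A.y * A.y' := by
      have h1 := (bwd B A).qq
      rw [← h1]
      show A.y * A.y' * B.y' * A.y' * (A.y * B.y * A.y * A.y') = _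
      calc A.y * A.y' * B.y' * A.y' * (A.y * B.y * A.y * A.y')
          = A.y * A.y' * B.y' * (A.y' * A.y) * B.y * A.y * A.y' := by noncomm_ring
        _ = A.y * A.y' * (B.y' * B.y) * A.y * A.y' := by rw [A.yy]; noncomm_ring
        _ = A.y * A.y' * (A.y * A.y') := by rw [B.yy]; noncomm_ring
        _ = A.y * A.y' := yy_idem A
    unfold Qf
    rw [h]
    rfl
  have hQ' : Qf' B (bwd B A) = Qb' B A := by
    have h : (bwd B A).u + (bwd B A).w = A.y * A.y' := by
      have h1 := (bwd B A).qq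
      rw [← h1]
      show A.y * A.y' * B.y' * A.y' * (A.y * B.y * A.y * A.y') = _
      calc A.y * A.y' * B.y' * A.y' * (A.y * B.y * A.y * A.y')
          = A.y * A.y' * B.y' * (A.y' * A.y) * B.y * A.y * A.y' := by noncomm_ring
        _ = A.y * A.y' * (B.y' * B.y) * A.y * A.y' := by rw [A.yy]; noncomm_ring
        _ = A.y * A.y' * (A.y * A.y') := by rw [B.yy]; noncomm_ring
        _ = A.y * A.y' := yy_idem A
    unfold Qf'
    rw [h]
    rfl
  have hP : Pf B (bwd B A) = Pb B A := by
    unfold Pf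
    rw [hQ]; rfl
  have hP' : Pf' B (bwd B A) = Pb' B A := by
    unfold Pf'
    rw [hQ']; rfl
  have ht : tau B (bwd B A) = A.y' := by
    unfold tau
    rw [hP]
    show Pb B A * (Pb' B A * A.y') + B.y * (A.y * A.y' * B.y' * A.y') = A.y'
    calc Pb B A * (Pb' B A * A.y') + B.y * (A.y * A.y' * B.y' * A.y')
        = (Pb B A * Pb' B A + B.y * (A.y * A.y') * B.y') * A.y' := by noncomm_ring
      _ = (B.x * B.x' + B.y * (A.x * A.x' + A.y * A.y') * B.y') * A.y' := by
          rw [Pb_Pb']; noncomm_ring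
      _ = A.y' := by rw [A.sum, mul_one, B.sum, one_mul]
  have ht' : tau' B (bwd B A) = A.y := by
    unfold tau'
    rw [hP']
    show A.y * Pb B A * Pb' B A + A.y * B.y * A.y * A.y' * B.y' = A.y
    calc A.y * Pb B A * Pb' B A + A.y * B.y * A.y * A.y' * B.y'
        = A.y * (Pb B A * Pb' B A + B.y * (A.y * A.y') * B.y') := by noncomm_ring
      _ = A.y * (B.x * B.x' + B.y * (A.x * A.x' + A.y * A.y') * B.y') := by
          rw [Pb_Pb']; noncomm_ring
      _ = A.y := by rw [A.sum, mul_one, B.sum, mul_one]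
  have hl : lam B (bwd B A) = A.x' := by
    unfold lam
    rw [ht']
    show A.x * A.x' * A.x' + A.y * (A.x * A.x' * A.y' * A.x' + A.y * (A.y' * A.y' * A.x')) = A.x'
    calc A.x * A.x' * A.x' + A.y * (A.x * A.x' * A.y' * A.x' + A.y * (A.y' * A.y' * A.x'))
        = (A.x * A.x' + A.y * (A.x * A.x' + A.y * A.y') * A.y') * A.x' := by noncomm_ring
      _ = A.x' := by rw [A.sum, mul_one, A.sum, one_mul]
  have hl' : lam' B (bwd B A) = A.x := by
    unfold lam'
    rw [ht]
    show A.x * A.x * A.x' + (A.x * A.y * A.x * A.x' + A.x * A.y * A.y * A.y') * A.y' = A.x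
    calc A.x * A.x * A.x' + (A.x * A.y * A.x * A.x' + A.x * A.y * A.y * A.y') * A.y'
        = A.x * (A.x * A.x' + A.y * (A.x * A.x' + A.y * A.y') * A.y') := by noncomm_ring
      _ = A.x := by rw [A.sum, mul_one, A.sum, mul_one]
  apply LF.ext
  · exact hl'
  · exact hl
  · exact ht'
  · exact ht

end inv

end

end Pool.Agent.Helper7.LL
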