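import Mathlib
import Pool.Agent.Helper92.LV.B
import Pool.Agent.Helper7.LL.Core

set_option autoImplicit false
set_option linter.unusedSimpArgs false

/-!
# Homomorphisms out of L_2 and L_{2-}
-/

namespace Pool.Agent.Helper7.LL

open Pool.Agent.Helper92 Pool.Agent.Helper92.LV

universe u v

/-- The graph E_2 with one vertex and two loops. -/
def E2 : LV.Graph Unit (Fin 2) where
  s _ := ()
  r _ := ()

/-- The Cuntz splice of `G` at the vertex `u`: two new vertices `u₁ = inr 0`, `u₂ = inr 1` and six
new edges: a loop at `u₁`, a loop at `u₂`, and edges `u → u₁`, `u₁ → u`, `u₁ → u₂`, `u₂ → u₁`. -/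
def cuntzSplice {V E : Type} (G : LV.Graph V E) (u : V) : LV.Graph (V ⊕ Fin 2) (E ⊕ Fin 6) where
  s := Sum.elim (fun e => Sum.inl (G.s e))
    ![Sum.inr 0, Sum.inr 1, Sum.inl u, Sum.inr 0, Sum.inr 0, Sum.inr 1]
  r := Sum.elim (fun e => Sum.inl (G.r e))
    ![Sum.inr 0, Sum.inr 1, Sum.inr 0, Sum.inl u, Sum.inr 1, Sum.inr 0]

/-- The graph E_{2-}, the Cuntz splice of E_2. -/
abbrev E2m : LV.Graph (Unit ⊕ Fin 2) (Fin 2 ⊕ Fin 6) := cuntzSplice E2 ()

section gen

variable {k : Type u} [Field k] {V E : Type} [Fintype V] [Fintype E] [DecidableEq V]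
  [DecidableEq E] {G : LV.Graph V E} {S : Type v} [Ring S] [Algebra k S]

lemma fam_ext {f g : Fam k G S} (h1 : f.v = g.v) (h2 : f.e = g.e) (h3 : f.g = g.g) : f = g := by
  cases f; cases g
  simp only at h1 h2 h3
  subst h1 h2 h3
  rfl

lemma lpa_ext {φ ψ : LPA k G →ₐ[k] S} (h : ∀ y : Gen V E, φ (gen k G y) = ψ (gen k G y)) :
    φ = ψ := by
  apply RingQuot.ringQuot_ext'
  apply FreeAlgebra.hom_ext
  funext y
  exact h y

/-- the image of a family -/
noncomputable def mapF {L : Type*} [Ring L] [Algebra k L] (φ : L →ₐ[k] S) (f : Fam k G L) :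
    Fam k G S where
  v a := φ (f.v a)
  e x := φ (f.e x)
  g x := φ (f.g x)
  vv a b := by
    rw [← map_mul, f.vv]
    split_ifs <;> simp
  se x := by rw [← map_mul, f.se]
  er x := by rw [← map_mul, f.er]
  rg x := by rw [← map_mul, f.rg]
  gs x := by rw [← map_mul, f.gs]
  ck1 x y := by
    rw [← map_mul, f.ck1]
    split_ifs <;> simp
  ck2 a h := by
    rw [f.ck2 a h, map_sum]
    simp only [map_mul]
  one := by rw [← map_sum, f.one, map_one]

/-- the family of a homomorphism -/
noncomputable def famOf (φ : LPA k G →ₐ[k] S) : Fam k G S := mapF φ (canon k G)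

/-- homomorphisms are families -/
noncomputable def homFam : (LPA k G →ₐ[k] S) ≃ Fam k G S where
  toFun φ := famOf φ
  invFun f := ofFam k G f
  left_inv φ := by
    apply lpa_ext
    intro y
    rw [ofFam_gen]
    rcases y with a | x | x <;> rfl
  right_inv f := by
    apply fam_ext
    · funext a; exact ofFam_gen k G f (Gen.v a)
    · funext a; exact ofFam_gen k G f (Gen.e a)
    · funext a; exact ofFam_gen k G f (Gen.g a)

end gen

section two

variable {k : Type u} [Field k] {S : Type v} [Ring S] [Algebra k S]

/-- families of E_2 -/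
noncomputable def famLF : Fam k E2 S ≃ LF S where
  toFun f :=
    { x := f.e 0
      x' := f.g 0
      y := f.e 1
      y' := f.g 1
      xx := by
        have h1 := f.ck1 0 0
        have h2 := f.one
        simp only [Finset.univ_unique, Finset.sum_singleton, if_true] at h1 h2
        rw [h1]; exact h2
      yy := by
        have h1 := f.ck1 1 1
        have h2 := f.one
        simp only [Finset.univ_unique, Finset.sum_singleton, if_true] at h1 h2
        rw [h1]; exact h2
      xy := by
        have h1 := f.ck1 0 1
        rwa [if_neg (by decide)] at h1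
      yx := by
        have h1 := f.ck1 1 0
        rwa [if_neg (by decide)] at h1
      sum := by
        have h1 := f.ck2 () ⟨0, rfl⟩
        have h2 := f.one
        simp only [Finset.univ_unique, Finset.sum_singleton] at h2
        have h3 : f.v () = 1 := h2
        rw [h3] at h1
        rw [h1]
        simp [E2, Fin.sum_univ_two] }
  invFun A :=
    { v := fun _ => 1
      e := ![A.x, A.y]
      g := ![A.x', A.y']
      vv := fun a b => by simp
      se := fun x => by simp
      er := fun x => by simp
      rg := fun x => by simp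
      gs := fun x => by simp
      ck1 := fun x y => by
        fin_cases x <;> fin_cases y <;> simp [A.xx, A.yy, A.xy, A.yx]
      ck2 := fun a _ => by
        simp [E2, Fin.sum_univ_two, A.sum]
      one := by simp }
  left_inv f := by
    have h2 := f.one
    simp only [Finset.univ_unique, Finset.sum_singleton] at h2
    apply fam_ext
    · funext a; exact h2.symm
    · funext a; fin_cases a <;> rfl
    · funext a; fin_cases a <;> rfl
  right_inv A := by
    apply LF.ext <;> rfl

end two

end Pool.Agent.Helper7.LL
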