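import Mathlib
import Pool.Agent.Helper7.LL.Hom

set_option autoImplicit false
set_option linter.unusedSimpArgs false

/-!
# Families of the graph E_{2-}
-/

namespace Pool.Agent.Helper7.LL

open Pool.Agent.Helper92 Pool.Agent.Helper92.LV

universe u v

section gen

variable {k : Type u} [Field k] {V E : Type} [Fintype V] [Fintype E] [DecidableEq V]
  [DecidableEq E] {G : LV.Graph V E} {S : Type v} [Ring S] [Algebra k S] (f : Fam k G S)

include f

lemma fve (a : V) (x : E) : f.v a * f.e x = if a = G.s x then f.e x else 0 := by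
  rw [← f.se x, ← mul_assoc, f.vv]
  split_ifs with h
  · rw [h]
  · rw [zero_mul]

lemma fev (x : E) (a : V) : f.e x * f.v a = if G.r x = a then f.e x else 0 := by
  rw [← f.er x, mul_assoc, f.vv]
  split_ifs with h
  · rfl
  · rw [mul_zero]

lemma fvg (a : V) (x : E) : f.v a * f.g x = if a = G.r x then f.g x else 0 := by
  rw [← f.rg x, ← mul_assoc, f.vv]
  split_ifs with h
  · rw [h]
  · rw [zero_mul]

lemma fgv (x : E) (a : V) : f.g x * f.v a = if G.s x = a then f.g x else 0 := by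
  rw [← f.gs x, mul_assoc, f.vv]
  split_ifs with h
  · rfl
  · rw [mul_zero]

lemma fee (x y : E) (h : G.r x ≠ G.s y) : f.e x * f.e y = 0 := by
  rw [← f.se y, ← mul_assoc, fev, if_neg h, zero_mul]

lemma feg (x y : E) (h : G.r x ≠ G.r y) : f.e x * f.g y = 0 := by
  rw [← f.rg y, ← mul_assoc, fev, if_neg h, zero_mul]

lemma fgg (x y : E) (h : G.s x ≠ G.r y) : f.g x * f.g y = 0 := by
  rw [← f.rg y, ← mul_assoc, fgv, if_neg h, zero_mul]

end gen

section two

variable {k : Type u} [Field k] {S : Type v} [Ring S] [Algebra k S]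

section ck

variable (f : Fam k E2m S)

lemma ck2a : f.v (Sum.inl ()) = f.e (Sum.inl 0) * f.g (Sum.inl 0) +
    f.e (Sum.inl 1) * f.g (Sum.inl 1) + f.e (Sum.inr 2) * f.g (Sum.inr 2) := by
  rw [f.ck2 (Sum.inl ()) ⟨Sum.inl 0, rfl⟩]
  rw [show (Finset.univ.filter (fun x => E2m.s x = Sum.inl ())) =
    {Sum.inl 0, Sum.inl 1, Sum.inr 2} by decide]
  rw [Finset.sum_insert (by decide), Finset.sum_insert (by decide), Finset.sum_singleton,
    add_assoc]

lemma ck2b : f.v (Sum.inr 0) = f.e (Sum.inr 0) * f.g (Sum.inr 0) +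
    f.e (Sum.inr 3) * f.g (Sum.inr 3) + f.e (Sum.inr 4) * f.g (Sum.inr 4) := by
  rw [f.ck2 (Sum.inr 0) ⟨Sum.inr 0, rfl⟩]
  rw [show (Finset.univ.filter (fun x => E2m.s x = Sum.inr 0)) =
    {Sum.inr 0, Sum.inr 3, Sum.inr 4} by decide]
  rw [Finset.sum_insert (by decide), Finset.sum_insert (by decide), Finset.sum_singleton,
    add_assoc]

lemma ck2c : f.v (Sum.inr 1) = f.e (Sum.inr 1) * f.g (Sum.inr 1) +
    f.e (Sum.inr 5) * f.g (Sum.inr 5) := by
  rw [f.ck2 (Sum.inr 1) ⟨Sum.inr 1, rfl⟩]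
  rw [show (Finset.univ.filter (fun x => E2m.s x = Sum.inr 1)) =
    {Sum.inr 1, Sum.inr 5} by decide]
  rw [Finset.sum_insert (by decide), Finset.sum_singleton]

lemma fone : f.v (Sum.inl ()) + f.v (Sum.inr 0) + f.v (Sum.inr 1) = 1 := by
  have h := f.one
  simp only [Fintype.sum_sum_type, Finset.univ_unique, Finset.sum_singleton,
    Fin.sum_univ_two] at h
  rw [add_assoc]
  exact h

lemma fpp : (f.g (Sum.inr 3) + f.g (Sum.inr 0) + f.g (Sum.inr 4)) *
    (f.e (Sum.inr 3) + f.e (Sum.inr 0) + f.e (Sum.inr 4)) = 1 := by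
  simp only [add_mul, mul_add]
  rw [f.ck1, f.ck1, f.ck1, f.ck1, f.ck1, f.ck1, f.ck1, f.ck1, f.ck1, if_pos rfl,
    if_neg (by decide), if_neg (by decide), if_neg (by decide), if_pos rfl,
    if_neg (by decide), if_neg (by decide), if_neg (by decide), if_pos rfl]
  rw [← fone f]
  simp only [add_zero, zero_add]
  rfl

lemma fpu : (f.e (Sum.inr 3) + f.e (Sum.inr 0) + f.e (Sum.inr 4)) *
    (f.g (Sum.inr 3) + f.g (Sum.inr 0) + f.g (Sum.inr 4)) = f.v (Sum.inr 0) := by
  rw [ck2b]
  simp only [add_mul, mul_add]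
  rw [feg f (Sum.inr 3) (Sum.inr 0) (by decide), feg f (Sum.inr 3) (Sum.inr 4) (by decide),
    feg f (Sum.inr 0) (Sum.inr 3) (by decide), feg f (Sum.inr 0) (Sum.inr 4) (by decide),
    feg f (Sum.inr 4) (Sum.inr 3) (by decide), feg f (Sum.inr 4) (Sum.inr 0) (by decide)]
  abel

lemma fqw : (f.e (Sum.inr 5) + f.e (Sum.inr 1)) *
    (f.g (Sum.inr 5) + f.g (Sum.inr 1)) = f.v (Sum.inr 1) := by
  rw [ck2c]
  simp only [add_mul, mul_add]
  rw [feg f (Sum.inr 5) (Sum.inr 1) (by decide), feg f (Sum.inr 1) (Sum.inr 5) (by decide)]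
  abel

lemma fqq : (f.g (Sum.inr 5) + f.g (Sum.inr 1)) *
    (f.e (Sum.inr 5) + f.e (Sum.inr 1)) = f.v (Sum.inr 0) + f.v (Sum.inr 1) := by
  simp only [add_mul, mul_add]
  rw [f.ck1, f.ck1, f.ck1, f.ck1, if_pos rfl, if_neg (by decide), if_neg (by decide), if_pos rfl]
  simp only [add_zero, zero_add]
  rfl

end ck

/-- the reduced family of a family -/
noncomputable def toRF (f : Fam k E2m S) : RF S where
  v := f.v (Sum.inl ())
  u := f.v (Sum.inr 0)
  w := f.v (Sum.inr 1)
  f := f.e (Sum.inl 0)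
  f' := f.g (Sum.inl 0)
  d := f.e (Sum.inl 1)
  d' := f.g (Sum.inl 1)
  G := f.e (Sum.inr 2) * (f.e (Sum.inr 3) + f.e (Sum.inr 0) + f.e (Sum.inr 4))
  G' := (f.g (Sum.inr 3) + f.g (Sum.inr 0) + f.g (Sum.inr 4)) * f.g (Sum.inr 2)
  p := f.e (Sum.inr 3) + f.e (Sum.inr 0) + f.e (Sum.inr 4)
  p' := f.g (Sum.inr 3) + f.g (Sum.inr 0) + f.g (Sum.inr 4)
  q := f.e (Sum.inr 5) + f.e (Sum.inr 1)
  q' := f.g (Sum.inr 5) + f.g (Sum.inr 1)
  vu := by rw [f.vv, if_neg (by decide)]
  uv := by rw [f.vv, if_neg (by decide)]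
  vw := by rw [f.vv, if_neg (by decide)]
  wv := by rw [f.vv, if_neg (by decide)]
  uw := by rw [f.vv, if_neg (by decide)]
  wu := by rw [f.vv, if_neg (by decide)]
  one := fone f
  fv := f.er (Sum.inl 0)
  vf' := f.rg (Sum.inl 0)
  dv := f.er (Sum.inl 1)
  vd' := f.rg (Sum.inl 1)
  ff := by rw [f.ck1, if_pos rfl]; rfl
  fd := by rw [f.ck1, if_neg (by decide)]
  fG := by rw [← mul_assoc, f.ck1, if_neg (by decide), zero_mul]
  df := by rw [f.ck1, if_neg (by decide)]
  dd := by rw [f.ck1, if_pos rfl]; rfl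
  dG := by rw [← mul_assoc, f.ck1, if_neg (by decide), zero_mul]
  Gf := by rw [mul_assoc, f.ck1, if_neg (by decide), mul_zero]
  Gd := by rw [mul_assoc, f.ck1, if_neg (by decide), mul_zero]
  GG := by
    rw [mul_assoc, ← mul_assoc (f.g (Sum.inr 2)), f.ck1, if_pos rfl]
    have h1 : f.v (E2m.r (Sum.inr 2)) * (f.e (Sum.inr 3) + f.e (Sum.inr 0) + f.e (Sum.inr 4)) =
        f.e (Sum.inr 3) + f.e (Sum.inr 0) + f.e (Sum.inr 4) := by
      rw [mul_add, mul_add, fve, fve, fve, if_pos (by decide), if_pos (by decide),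
        if_pos (by decide)]
    rw [h1]
    exact fpp f
  vsum := by
    rw [ck2a f]
    congr 1
    rw [mul_assoc, ← mul_assoc _ _ (f.g (Sum.inr 2)), fpu, fvg, if_pos (by decide)]
  pp := fpp f
  pu := fpu f
  qv := by
    rw [add_mul, fev, fev, if_neg (by decide), if_neg (by decide), add_zero]
  vq' := by
    rw [mul_add, fvg, fvg, if_neg (by decide), if_neg (by decide), add_zero]
  qq := fqq f
  qw := fqw f

section more

variable {R : Type*} [Ring R] (F : RF R)

lemma f'p : F.f' * F.p = 0 := by rw [← F.f'v, mul_assoc, F.vp, mul_zero]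
lemma d'p : F.d' * F.p = 0 := by rw [← F.d'v, mul_assoc, F.vp, mul_zero]
lemma G'p : F.G' * F.p = 0 := by rw [← F.G'v, mul_assoc, F.vp, mul_zero]
lemma f'q : F.f' * F.q = 0 := by rw [← F.f'v, mul_assoc, F.vq, mul_zero]
lemma d'q : F.d' * F.q = 0 := by rw [← F.d'v, mul_assoc, F.vq, mul_zero]
lemma G'q : F.G' * F.q = 0 := by rw [← F.G'v, mul_assoc, F.vq, mul_zero]
lemma p'f : F.p' * F.f = 0 := by rw [← F.vf, ← mul_assoc, F.p'v, zero_mul]
lemma p'd : F.p' * F.d = 0 := by rw [← F.vd, ← mul_assoc, F.p'v, zero_mul]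
lemma p'G : F.p' * F.G = 0 := by rw [← F.vG, ← mul_assoc, F.p'v, zero_mul]
lemma q'f : F.q' * F.f = 0 := by rw [← F.vf, ← mul_assoc, F.q'v, zero_mul]
lemma q'd : F.q' * F.d = 0 := by rw [← F.vd, ← mul_assoc, F.q'v, zero_mul]
lemma q'G : F.q' * F.G = 0 := by rw [← F.vG, ← mul_assoc, F.q'v, zero_mul]

lemma sand {a b c e x y : R} (h : b * c = e) (h2 : a * (e * y) = x) : (a * b) * (c * y) = x := by
  rw [mul_assoc, ← mul_assoc b c, h, h2]

end more

lemma ofRF_ck1 (F : RF S) (x y : Fin 2 ⊕ Fin 6) :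
    (Sum.elim ![F.f', F.d'] ![F.u * F.p', F.w * F.q', F.p * F.G', F.v * F.p', F.w * F.p',
      F.u * F.q'] : Fin 2 ⊕ Fin 6 → S) x *
    (Sum.elim ![F.f, F.d] ![F.p * F.u, F.q * F.w, F.G * F.p', F.p * F.v, F.p * F.w, F.q * F.u] :
      Fin 2 ⊕ Fin 6 → S) y =
    if x = y then (Sum.elim (fun _ => F.v) ![F.u, F.w] : Unit ⊕ Fin 2 → S) (E2m.r x) else 0 := by
  have c1 : ∀ z : S, F.f' * (F.f * z) = F.v * z := ra F.ff
  have c2 : ∀ z : S, F.f' * (F.d * z) = 0 * z := ra F.fd
  have c3 : ∀ z : S, F.f' * (F.G * z) = 0 * z := ra F.fG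
  have c4 : ∀ z : S, F.d' * (F.f * z) = 0 * z := ra F.df
  have c5 : ∀ z : S, F.d' * (F.d * z) = F.v * z := ra F.dd
  have c6 : ∀ z : S, F.d' * (F.G * z) = 0 * z := ra F.dG
  have c7 : ∀ z : S, F.G' * (F.f * z) = 0 * z := ra F.Gf
  have c8 : ∀ z : S, F.G' * (F.d * z) = 0 * z := ra F.Gd
  have c9 : ∀ z : S, F.G' * (F.G * z) = 1 * z := ra F.GG
  have d1 : ∀ z : S, F.f' * (F.p * z) = 0 * z := ra (f'p F)
  have d2 : ∀ z : S, F.d' * (F.p * z) = 0 * z := ra (d'p F)
  have d3 : ∀ z : S, F.G' * (F.p * z) = 0 * z := ra (G'p F)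
  have d4 : ∀ z : S, F.f' * (F.q * z) = 0 * z := ra (f'q F)
  have d5 : ∀ z : S, F.d' * (F.q * z) = 0 * z := ra (d'q F)
  have d6 : ∀ z : S, F.G' * (F.q * z) = 0 * z := ra (G'q F)
  have e1 : ∀ z : S, F.p' * (F.f * z) = 0 * z := ra (p'f F)
  have e2 : ∀ z : S, F.p' * (F.d * z) = 0 * z := ra (p'd F)
  have e3 : ∀ z : S, F.p' * (F.G * z) = 0 * z := ra (p'G F)
  have e4 : ∀ z : S, F.q' * (F.f * z) = 0 * z := ra (q'f F)
  have e5 : ∀ z : S, F.q' * (F.d * z) = 0 * z := ra (q'd F)
  have e6 : ∀ z : S, F.q' * (F.G * z) = 0 * z := ra (q'G F)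
  have g1 : ∀ z : S, F.p' * (F.p * z) = 1 * z := ra F.pp
  have g2 : ∀ z : S, F.p' * (F.q * z) = 0 * z := ra F.p'q
  have g3 : ∀ z : S, F.q' * (F.p * z) = 0 * z := ra F.q'p
  have g4 : ∀ z : S, F.q' * (F.q * z) = (F.u + F.w) * z := ra F.qq
  rcases x with x | x <;> rcases y with y | y <;> fin_cases x <;> fin_cases y <;>
    simp [cuntzSplice, E2, mul_assoc, c1, c2, c3, c4, c5, c6, c7, c8, c9, d1, d2, d3, d4, d5, d6,
      e1, e2, e3, e4, e5, e6, g1, g2, g3, g4, F.ff, F.fd, F.df, F.dd, p'f F, p'd F, q'f F, q'd F,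
      F.Gf, F.Gd, F.vv, F.uu, F.ww, F.uv, F.vu, F.uw, F.wu, F.vw, F.wv, F.pu, add_mul]

lemma ofRF_ck2 (F : RF S) (a : Unit ⊕ Fin 2) (_ : ∃ x, E2m.s x = a) :
    (Sum.elim (fun _ => F.v) ![F.u, F.w] : Unit ⊕ Fin 2 → S) a =
    ∑ x with E2m.s x = a,
    (Sum.elim ![F.f, F.d] ![F.p * F.u, F.q * F.w, F.G * F.p', F.p * F.v, F.p * F.w, F.q * F.u] :
      Fin 2 ⊕ Fin 6 → S) x *
    (Sum.elim ![F.f', F.d'] ![F.u * F.p', F.w * F.q', F.p * F.G', F.v * F.p', F.w * F.p',
      F.u * F.q'] : Fin 2 ⊕ Fin 6 → S) x := by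
  rcases a with a | a
  · rw [show (Finset.univ.filter (fun x => E2m.s x = Sum.inl a)) =
      {Sum.inl 0, Sum.inl 1, Sum.inr 2} by revert a; decide]
    rw [Finset.sum_insert (by decide), Finset.sum_insert (by decide), Finset.sum_singleton]
    change F.v = F.f * F.f' + (F.d * F.d' + F.G * F.p' * (F.p * F.G'))
    rw [sand F.pp rfl, one_mul, ← add_assoc]
    exact F.vsum.symm
  · fin_cases a
    · change F.u = ∑ x with E2m.s x = Sum.inr 0, _
      rw [show (Finset.univ.filter (fun x => E2m.s x = Sum.inr 0)) =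
        {Sum.inr 0, Sum.inr 3, Sum.inr 4} by decide]
      rw [Finset.sum_insert (by decide), Finset.sum_insert (by decide), Finset.sum_singleton]
      change F.u = F.p * F.u * (F.u * F.p') + (F.p * F.v * (F.v * F.p') + F.p * F.w * (F.w * F.p'))
      rw [sand F.uu rfl, sand F.vv rfl, sand F.ww rfl, ← mul_add, ← mul_add, ← add_mul, ← add_mul]
      rw [show F.u + (F.v + F.w) = 1 by rw [← F.one]; abel, one_mul, F.pu]
    · change F.w = ∑ x with E2m.s x = Sum.inr 1, _
      rw [show (Finset.univ.filter (fun x => E2m.s x = Sum.inr 1)) =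
        {Sum.inr 1, Sum.inr 5} by decide]
      rw [Finset.sum_insert (by decide), Finset.sum_singleton]
      change F.w = F.q * F.w * (F.w * F.q') + F.q * F.u * (F.u * F.q')
      rw [sand F.ww rfl, sand F.uu rfl, ← mul_add, ← add_mul, add_comm F.w F.u, F.uwq', F.qw]

/-- the family of a reduced family -/
noncomputable def ofRF (F : RF S) : Fam k E2m S where
  v := Sum.elim (fun _ => F.v) ![F.u, F.w]
  e := Sum.elim ![F.f, F.d] ![F.p * F.u, F.q * F.w, F.G * F.p', F.p * F.v, F.p * F.w, F.q * F.u]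
  g := Sum.elim ![F.f', F.d'] ![F.u * F.p', F.w * F.q', F.p * F.G', F.v * F.p', F.w * F.p',
    F.u * F.q']
  vv := by
    rintro (a | a) (b | b)
    · simpa using F.vv
    · fin_cases b
      · simpa using F.vu
      · simpa using F.vw
    · fin_cases a
      · simpa using F.uv
      · simpa using F.wv
    · fin_cases a <;> fin_cases b
      · simpa using F.uu
      · simpa using F.uw
      · simpa using F.wu
      · simpa using F.ww
  se := by
    rintro (a | a)
    · fin_cases a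
      · exact F.vf
      · exact F.vd
    · fin_cases a
      · exact ra F.up _
      · exact ra F.wq _
      · exact ra F.vG _
      · exact ra F.up _
      · exact ra F.up _
      · exact ra F.wq _
  er := by
    rintro (a | a)
    · fin_cases a
      · exact F.fv
      · exact F.dv
    · fin_cases a
      · exact (mul_assoc _ _ _).trans (congrArg (F.p * ·) F.uu)
      · exact (mul_assoc _ _ _).trans (congrArg (F.q * ·) F.ww)
      · exact (mul_assoc _ _ _).trans (congrArg (F.G * ·) F.p'u)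
      · exact (mul_assoc _ _ _).trans (congrArg (F.p * ·) F.vv)
      · exact (mul_assoc _ _ _).trans (congrArg (F.p * ·) F.ww)
      · exact (mul_assoc _ _ _).trans (congrArg (F.q * ·) F.uu)
  rg := by
    rintro (a | a)
    · fin_cases a
      · exact F.vf'
      · exact F.vd'
    · fin_cases a
      · exact ra F.uu _
      · exact ra F.ww _
      · exact ra F.up _
      · exact ra F.vv _
      · exact ra F.ww _
      · exact ra F.uu _
  gs := by
    rintro (a | a)
    · fin_cases a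
      · exact F.f'v
      · exact F.d'v
    · fin_cases a
      · exact (mul_assoc _ _ _).trans (congrArg (F.u * ·) F.p'u)
      · exact (mul_assoc _ _ _).trans (congrArg (F.w * ·) F.q'w)
      · exact (mul_assoc _ _ _).trans (congrArg (F.p * ·) F.G'v)
      · exact (mul_assoc _ _ _).trans (congrArg (F.v * ·) F.p'u)
      · exact (mul_assoc _ _ _).trans (congrArg (F.w * ·) F.p'u)
      · exact (mul_assoc _ _ _).trans (congrArg (F.u * ·) F.q'w)
  ck1 := ofRF_ck1 F
  ck2 := ofRF_ck2 F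
  one := by
    simp only [Fintype.sum_sum_type, Finset.univ_unique, Finset.sum_singleton,
      Fin.sum_univ_two]
    exact (add_assoc _ _ _).symm.trans F.one

/-- families of E_{2-} -/
noncomputable def famRF : Fam k E2m S ≃ RF S where
  toFun := toRF
  invFun := ofRF
  left_inv f := by
    apply fam_ext
    · funext a
      rcases a with a | a
      · rfl
      · fin_cases a <;> rfl
    · funext x
      rcases x with x | x
      · fin_cases x <;> rfl
      · have hp : ∀ j, (toRF f).p * f.v j = (if Sum.inl () = j then f.e (Sum.inr 3) else 0) +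
            (if Sum.inr 0 = j then f.e (Sum.inr 0) else 0) +
            (if Sum.inr 1 = j then f.e (Sum.inr 4) else 0) := by
          intro j
          change (f.e (Sum.inr 3) + f.e (Sum.inr 0) + f.e (Sum.inr 4)) * f.v j = _
          rw [add_mul, add_mul, fev, fev, fev]
          rfl
        have hq : ∀ j, (toRF f).q * f.v j = (if Sum.inr 0 = j then f.e (Sum.inr 5) else 0) +
            (if Sum.inr 1 = j then f.e (Sum.inr 1) else 0) := by
          intro j
          change (f.e (Sum.inr 5) + f.e (Sum.inr 1)) * f.v j = _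
          rw [add_mul, fev, fev]
          rfl
        fin_cases x
        · exact (hp (Sum.inr 0)).trans (by simp)
        · exact (hq (Sum.inr 1)).trans (by simp)
        · change f.e (Sum.inr 2) * (toRF f).p * (toRF f).p' = f.e (Sum.inr 2)
          rw [mul_assoc, (toRF f).pu]
          exact f.er (Sum.inr 2)
        · exact (hp (Sum.inl ())).trans (by simp)
        · exact (hp (Sum.inr 1)).trans (by simp)
        · exact (hq (Sum.inr 0)).trans (by simp)
    · funext x
      rcases x with x | x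
      · fin_cases x <;> rfl
      · have hp : ∀ j, f.v j * (toRF f).p' = (if j = Sum.inl () then f.g (Sum.inr 3) else 0) +
            (if j = Sum.inr 0 then f.g (Sum.inr 0) else 0) +
            (if j = Sum.inr 1 then f.g (Sum.inr 4) else 0) := by
          intro j
          change f.v j * (f.g (Sum.inr 3) + f.g (Sum.inr 0) + f.g (Sum.inr 4)) = _
          rw [mul_add, mul_add, fvg, fvg, fvg]
          rfl
        have hq : ∀ j, f.v j * (toRF f).q' = (if j = Sum.inr 0 then f.g (Sum.inr 5) else 0) +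
            (if j = Sum.inr 1 then f.g (Sum.inr 1) else 0) := by
          intro j
          change f.v j * (f.g (Sum.inr 5) + f.g (Sum.inr 1)) = _
          rw [mul_add, fvg, fvg]
          rfl
        fin_cases x
        · exact (hp (Sum.inr 0)).trans (by simp)
        · exact (hq (Sum.inr 1)).trans (by simp)
        · change (toRF f).p * ((toRF f).p' * f.g (Sum.inr 2)) = f.g (Sum.inr 2)
          rw [← mul_assoc, (toRF f).pu]
          exact f.rg (Sum.inr 2)
        · exact (hp (Sum.inl ())).trans (by simp)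
        · exact (hp (Sum.inr 1)).trans (by simp)
        · exact (hq (Sum.inr 0)).trans (by simp)
  right_inv F := by
    have h1 : F.p * F.v + F.p * F.u + F.p * F.w = F.p := by
      rw [← mul_add, ← mul_add, F.one, mul_one]
    have h2 : F.v * F.p' + F.u * F.p' + F.w * F.p' = F.p' := by
      rw [← add_mul, ← add_mul, F.one, one_mul]
    have h3 : F.q * F.u + F.q * F.w = F.q := by rw [← mul_add, F.quw]
    have h4 : F.u * F.q' + F.w * F.q' = F.q' := by rw [← add_mul, F.uwq']
    apply RF.ext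
    · rfl
    · rfl
    · rfl
    · rfl
    · rfl
    · rfl
    · rfl
    · change F.G * F.p' * (F.p * F.v + F.p * F.u + F.p * F.w) = F.G
      rw [h1, mul_assoc, F.pp, mul_one]
    · change (F.v * F.p' + F.u * F.p' + F.w * F.p') * (F.p * F.G') = F.G'
      rw [h2, ← mul_assoc, F.pp, one_mul]
    · exact h1
    · exact h2
    · exact h3
    · exact h4

end two

end Pool.Agent.Helper7.LL
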