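import Mathlib
import Pool.Agent.Helper7.LL.Hom2

set_option autoImplicit false
set_option linter.unusedSimpArgs false

/-!
# Free products of algebras, and free products with L_2 and L_{2-}
-/

namespace Pool.Agent.Helper7.LL

open Pool.Agent.Helper92 Pool.Agent.Helper92.LV

universe u

section FP

variable (k : Type u) [Field k] (A B : Type u) [Ring A] [Algebra k A] [Ring B] [Algebra k B]

open FreeAlgebra in
/-- The relations of the free product `A * B` over `k`: the images of the generators `inl a`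
(`a ∈ A`) form an algebra homomorphism, and so do the images of the generators `inr b`
(`b ∈ B`). -/
inductive FPRel : FreeAlgebra k (A ⊕ B) → FreeAlgebra k (A ⊕ B) → Prop
  | addl (a b : A) : FPRel (ι k (Sum.inl (a + b))) (ι k (Sum.inl a) + ι k (Sum.inl b))
  | mull (a b : A) : FPRel (ι k (Sum.inl (a * b))) (ι k (Sum.inl a) * ι k (Sum.inl b))
  | algl (c : k) : FPRel (ι k (Sum.inl (algebraMap k A c))) (algebraMap k _ c)
  | addr (a b : B) : FPRel (ι k (Sum.inr (a + b))) (ι k (Sum.inr a) + ι k (Sum.inr b))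
  | mulr (a b : B) : FPRel (ι k (Sum.inr (a * b))) (ι k (Sum.inr a) * ι k (Sum.inr b))
  | algr (c : k) : FPRel (ι k (Sum.inr (algebraMap k B c))) (algebraMap k _ c)

/-- The free product (coproduct) of the unital `k`-algebras `A` and `B`. -/
abbrev FP : Type u := RingQuot (FPRel k A B)

/-- the image of `a ∈ A` in `A * B` -/
noncomputable def inlFun (a : A) : FP k A B :=
  RingQuot.mkAlgHom k (FPRel k A B) (FreeAlgebra.ι k (Sum.inl a))

/-- the image of `b ∈ B` in `A * B` -/
noncomputable def inrFun (b : B) : FP k A B :=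
  RingQuot.mkAlgHom k (FPRel k A B) (FreeAlgebra.ι k (Sum.inr b))

lemma inlFun_add (a b : A) : inlFun k A B (a + b) = inlFun k A B a + inlFun k A B b := by
  unfold inlFun
  rw [RingQuot.mkAlgHom_rel k (FPRel.addl a b), map_add]

lemma inlFun_mul (a b : A) : inlFun k A B (a * b) = inlFun k A B a * inlFun k A B b := by
  unfold inlFun
  rw [RingQuot.mkAlgHom_rel k (FPRel.mull a b), map_mul]

lemma inlFun_alg (c : k) : inlFun k A B (algebraMap k A c) = algebraMap k (FP k A B) c := by
  unfold inlFun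
  rw [RingQuot.mkAlgHom_rel k (FPRel.algl c), AlgHom.commutes]

lemma inlFun_one : inlFun k A B 1 = 1 := by
  have h := inlFun_alg k A B 1
  rwa [map_one, map_one] at h

lemma inlFun_zero : inlFun k A B 0 = 0 := by
  have h := inlFun_alg k A B 0
  rwa [map_zero, map_zero] at h

lemma inrFun_add (a b : B) : inrFun k A B (a + b) = inrFun k A B a + inrFun k A B b := by
  unfold inrFun
  rw [RingQuot.mkAlgHom_rel k (FPRel.addr a b), map_add]

lemma inrFun_mul (a b : B) : inrFun k A B (a * b) = inrFun k A B a * inrFun k A B b := by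
  unfold inrFun
  rw [RingQuot.mkAlgHom_rel k (FPRel.mulr a b), map_mul]

lemma inrFun_alg (c : k) : inrFun k A B (algebraMap k B c) = algebraMap k (FP k A B) c := by
  unfold inrFun
  rw [RingQuot.mkAlgHom_rel k (FPRel.algr c), AlgHom.commutes]

lemma inrFun_one : inrFun k A B 1 = 1 := by
  have h := inrFun_alg k A B 1
  rwa [map_one, map_one] at h

lemma inrFun_zero : inrFun k A B 0 = 0 := by
  have h := inrFun_alg k A B 0
  rwa [map_zero, map_zero] at h

/-- The canonical map `A → A * B`. -/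
noncomputable def inlF : A →ₐ[k] FP k A B where
  toFun := inlFun k A B
  map_one' := inlFun_one k A B
  map_mul' := inlFun_mul k A B
  map_zero' := inlFun_zero k A B
  map_add' := inlFun_add k A B
  commutes' := inlFun_alg k A B

/-- The canonical map `B → A * B`. -/
noncomputable def inrF : B →ₐ[k] FP k A B where
  toFun := inrFun k A B
  map_one' := inrFun_one k A B
  map_mul' := inrFun_mul k A B
  map_zero' := inrFun_zero k A B
  map_add' := inrFun_add k A B
  commutes' := inrFun_alg k A B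

/-- `(C, i, j)` is a coproduct (free product) of the unital `k`-algebras `A` and `B`: two
homomorphisms `A → S`, `B → S` factor through a unique homomorphism `C → S`. -/
def IsCoprod (C : Type u) [Ring C] [Algebra k C] (i : A →ₐ[k] C) (j : B →ₐ[k] C) : Prop :=
  ∀ (S : Type u) [Ring S] [Algebra k S] (f : A →ₐ[k] S) (g : B →ₐ[k] S),
    ∃! h : C →ₐ[k] S, h.comp i = f ∧ h.comp j = g

theorem isCoprod_FP : IsCoprod k A B (FP k A B) (inlF k A B) (inrF k A B) := by
  intro S _ _ f g
  have hrel : ∀ ⦃x y : FreeAlgebra k (A ⊕ B)⦄, FPRel k A B x y →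
      FreeAlgebra.lift k (Sum.elim f g) x = FreeAlgebra.lift k (Sum.elim f g) y := by
    intro x y hxy
    cases hxy <;>
      simp only [map_add, map_mul, FreeAlgebra.lift_ι_apply, Sum.elim_inl, Sum.elim_inr,
        AlgHom.commutes]
  refine ⟨RingQuot.liftAlgHom k ⟨FreeAlgebra.lift k (Sum.elim f g), hrel⟩, ⟨?_, ?_⟩, ?_⟩
  · ext a
    change RingQuot.liftAlgHom k ⟨FreeAlgebra.lift k (Sum.elim f g), hrel⟩
      (RingQuot.mkAlgHom k (FPRel k A B) (FreeAlgebra.ι k (Sum.inl a))) = f a
    rw [RingQuot.liftAlgHom_mkAlgHom_apply, FreeAlgebra.lift_ι_apply, Sum.elim_inl]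
  · ext a
    change RingQuot.liftAlgHom k ⟨FreeAlgebra.lift k (Sum.elim f g), hrel⟩
      (RingQuot.mkAlgHom k (FPRel k A B) (FreeAlgebra.ι k (Sum.inr a))) = g a
    rw [RingQuot.liftAlgHom_mkAlgHom_apply, FreeAlgebra.lift_ι_apply, Sum.elim_inr]
  · rintro h ⟨h1, h2⟩
    apply RingQuot.ringQuot_ext'
    apply FreeAlgebra.hom_ext
    funext y
    change h (RingQuot.mkAlgHom k (FPRel k A B) (FreeAlgebra.ι k y)) =
      RingQuot.liftAlgHom k ⟨FreeAlgebra.lift k (Sum.elim f g), hrel⟩
      (RingQuot.mkAlgHom k (FPRel k A B) (FreeAlgebra.ι k y))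
    rw [RingQuot.liftAlgHom_mkAlgHom_apply, FreeAlgebra.lift_ι_apply]
    rcases y with a | a
    · exact congrArg (fun t : A →ₐ[k] S => t a) h1
    · exact congrArg (fun t : B →ₐ[k] S => t a) h2

variable {k A B}

/-- Two coproducts are isomorphic. -/
theorem IsCoprod.equiv {C C' : Type u} [Ring C] [Algebra k C] [Ring C'] [Algebra k C']
    {i : A →ₐ[k] C} {j : B →ₐ[k] C} {i' : A →ₐ[k] C'} {j' : B →ₐ[k] C'}
    (h : IsCoprod k A B C i j) (h' : IsCoprod k A B C' i' j') :
    ∃ e : C ≃ₐ[k] C', (∀ a, e (i a) = i' a) ∧ (∀ b, e (j b) = j' b) := by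
  obtain ⟨φ, ⟨hφ1, hφ2⟩, -⟩ := h C' i' j'
  obtain ⟨ψ, ⟨hψ1, hψ2⟩, -⟩ := h' C i j
  have e1 : ψ.comp φ = AlgHom.id k C := by
    refine (h C i j).unique ⟨?_, ?_⟩ ⟨?_, ?_⟩
    · rw [AlgHom.comp_assoc, hφ1, hψ1]
    · rw [AlgHom.comp_assoc, hφ2, hψ2]
    · rw [AlgHom.id_comp]
    · rw [AlgHom.id_comp]
  have e2 : φ.comp ψ = AlgHom.id k C' := by
    refine (h' C' i' j').unique ⟨?_, ?_⟩ ⟨?_, ?_⟩
    · rw [AlgHom.comp_assoc, hψ1, hφ1]
    · rw [AlgHom.comp_assoc, hψ2, hφ2]
    · rw [AlgHom.id_comp]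
    · rw [AlgHom.id_comp]
  refine ⟨AlgEquiv.ofAlgHom φ ψ e2 e1, fun a => ?_, fun b => ?_⟩
  · exact congrArg (fun t : A →ₐ[k] C' => t a) hφ1
  · exact congrArg (fun t : B →ₐ[k] C' => t b) hφ2

theorem IsCoprod.symm {C : Type u} [Ring C] [Algebra k C]
    {i : A →ₐ[k] C} {j : B →ₐ[k] C} (h : IsCoprod k A B C i j) : IsCoprod k B A C j i := by
  intro S _ _ f g
  obtain ⟨t, ⟨h1, h2⟩, h3⟩ := h S g f
  exact ⟨t, ⟨h2, h1⟩, fun y hy => h3 y ⟨hy.2, hy.1⟩⟩

end FP

/-! ### transport of families along homomorphisms -/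

section map

variable {R S : Type*} [Ring R] [Ring S] (h : R →+* S)

/-- image of an L_2 family -/
def mapLF (A : LF R) : LF S where
  x := h A.x
  x' := h A.x'
  y := h A.y
  y' := h A.y'
  xx := by rw [← map_mul, A.xx, map_one]
  yy := by rw [← map_mul, A.yy, map_one]
  xy := by rw [← map_mul, A.xy, map_zero]
  yx := by rw [← map_mul, A.yx, map_zero]
  sum := by rw [← map_mul, ← map_mul, ← map_add, A.sum, map_one]

/-- image of an L_{2-} family -/
def mapRF (F : RF R) : RF S where
  v := h F.v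
  u := h F.u
  w := h F.w
  f := h F.f
  f' := h F.f'
  d := h F.d
  d' := h F.d'
  G := h F.G
  G' := h F.G'
  p := h F.p
  p' := h F.p'
  q := h F.q
  q' := h F.q'
  vu := by rw [← map_mul, F.vu, map_zero]
  uv := by rw [← map_mul, F.uv, map_zero]
  vw := by rw [← map_mul, F.vw, map_zero]
  wv := by rw [← map_mul, F.wv, map_zero]
  uw := by rw [← map_mul, F.uw, map_zero]
  wu := by rw [← map_mul, F.wu, map_zero]
  one := by rw [← map_add, ← map_add, F.one, map_one]
  fv := by rw [← map_mul, F.fv]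
  vf' := by rw [← map_mul, F.vf']
  dv := by rw [← map_mul, F.dv]
  vd' := by rw [← map_mul, F.vd']
  ff := by rw [← map_mul, F.ff]
  fd := by rw [← map_mul, F.fd, map_zero]
  fG := by rw [← map_mul, F.fG, map_zero]
  df := by rw [← map_mul, F.df, map_zero]
  dd := by rw [← map_mul, F.dd]
  dG := by rw [← map_mul, F.dG, map_zero]
  Gf := by rw [← map_mul, F.Gf, map_zero]
  Gd := by rw [← map_mul, F.Gd, map_zero]
  GG := by rw [← map_mul, F.GG, map_one]
  vsum := by rw [← map_mul, ← map_mul, ← map_mul, ← map_add, ← map_add, F.vsum]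
  pp := by rw [← map_mul, F.pp, map_one]
  pu := by rw [← map_mul, F.pu]
  qv := by rw [← map_mul, F.qv, map_zero]
  vq' := by rw [← map_mul, F.vq', map_zero]
  qq := by rw [← map_mul, F.qq, map_add]
  qw := by rw [← map_mul, F.qw]

lemma fwd_map (B : LF R) (F : RF R) : fwd (mapLF h B) (mapRF h F) = mapLF h (fwd B F) := by
  apply LF.ext <;>
    simp only [fwd, mapLF, mapRF, lam, lam', tau, tau', Pf, Pf', Qf, Qf', map_add, map_mul]

lemma bwd_map (B : LF R) (A : LF R) : bwd (mapLF h B) (mapLF h A) = mapRF h (bwd B A) := by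
  apply RF.ext <;>
    simp only [bwd, mapLF, mapRF, Pb, Pb', Qb, Qb', map_add, map_mul, map_sub, map_one]

end map

end Pool.Agent.Helper7.LL
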