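import Mathlib
import Pool.Agent.Helper7.LL.FP

set_option autoImplicit false
set_option linter.unusedSimpArgs false

/-!
# The correspondence between homomorphisms out of L_2 and out of L_{2-}
-/

namespace Pool.Agent.Helper7.LL

open Pool.Agent.Helper92 Pool.Agent.Helper92.LV

universe u v

section

variable {k : Type u} [Field k] {S T : Type v} [Ring S] [Algebra k S] [Ring T] [Algebra k T]

/-- homomorphisms out of L_2 are L_2 families -/
noncomputable def homLF : (LPA k E2 →ₐ[k] S) ≃ LF S := homFam.trans famLF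

/-- homomorphisms out of L_{2-} are L_{2-} families -/
noncomputable def homRF : (LPA k E2m →ₐ[k] S) ≃ RF S := homFam.trans famRF

lemma homLF_comp (h : S →ₐ[k] T) (φ : LPA k E2 →ₐ[k] S) :
    homLF (h.comp φ) = mapLF (h : S →+* T) (homLF φ) := rfl

lemma homRF_comp (h : S →ₐ[k] T) (φ : LPA k E2m →ₐ[k] S) :
    homRF (h.comp φ) = mapRF (h : S →+* T) (homRF φ) := by
  apply RF.ext <;>
    simp only [homRF, famRF, homFam, famOf, mapF, toRF, mapRF, Equiv.trans_apply, Equiv.coe_fn_mk,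
      AlgHom.comp_apply, RingHom.coe_coe, map_add, map_mul]

/-- Given an L_2 family of `S`, the homomorphisms `L_{2-} → S` correspond to the
homomorphisms `L_2 → S`. -/
noncomputable def corr (B : LF S) : (LPA k E2m →ₐ[k] S) ≃ (LPA k E2 →ₐ[k] S) :=
  homRF.trans ((⟨fwd B, bwd B, bwd_fwd B, fwd_bwd B⟩ : RF S ≃ LF S).trans homLF.symm)

lemma corr_comp (B : LF S) (h : S →ₐ[k] T) (φ : LPA k E2m →ₐ[k] S) :
    corr (mapLF (h : S →+* T) B) (h.comp φ) = h.comp (corr B φ) := by
  apply homLF.injective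
  rw [homLF_comp]
  change homLF (homLF.symm (fwd (mapLF (h : S →+* T) B) (homRF (h.comp φ)))) =
    mapLF (h : S →+* T) (homLF (homLF.symm (fwd B (homRF φ))))
  rw [Equiv.apply_symm_apply, Equiv.apply_symm_apply, homRF_comp, fwd_map]

lemma corr_symm_comp (B : LF S) (h : S →ₐ[k] T) (φ : LPA k E2 →ₐ[k] S) :
    (corr (mapLF (h : S →+* T) B)).symm (h.comp φ) = h.comp ((corr B).symm φ) := by
  rw [Equiv.symm_apply_eq, corr_comp, Equiv.apply_symm_apply]

end

section coprod

variable {k : Type u} [Field k] {R C : Type u} [Ring R] [Algebra k R] [Ring C] [Algebra k C]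

/-- A coproduct of `R` and L_{2-} is a coproduct of `R` and L_2. -/
theorem coprod_to (B : LF R) (i : R →ₐ[k] C) (j : LPA k E2m →ₐ[k] C)
    (h : IsCoprod k R (LPA k E2m) C i j) :
    IsCoprod k R (LPA k E2) C i (corr (mapLF (i : R →+* C) B) j) := by
  intro S _ _ f g
  obtain ⟨t, ⟨h1, h2⟩, h3⟩ := h S f ((corr (mapLF (f : R →+* S) B)).symm g)
  have key : ∀ t : C →ₐ[k] S, t.comp i = f →
      t.comp (corr (mapLF (i : R →+* C) B) j) = corr (mapLF (f : R →+* S) B) (t.comp j) := by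
    intro t ht
    rw [← corr_comp]
    congr 2
    rw [← ht]
    rfl
  refine ⟨t, ⟨h1, ?_⟩, ?_⟩
  · rw [key t h1, h2, Equiv.apply_symm_apply]
  · rintro y ⟨hy1, hy2⟩
    apply h3
    refine ⟨hy1, ?_⟩
    rw [key y hy1] at hy2
    rw [← hy2, Equiv.symm_apply_apply]

/-- A coproduct of `R` and L_2 is a coproduct of `R` and L_{2-}. -/
theorem coprod_from (B : LF R) (i : R →ₐ[k] C) (j : LPA k E2 →ₐ[k] C)
    (h : IsCoprod k R (LPA k E2) C i j) :
    IsCoprod k R (LPA k E2m) C i ((corr (mapLF (i : R →+* C) B)).symm j) := by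
  intro S _ _ f g
  obtain ⟨t, ⟨h1, h2⟩, h3⟩ := h S f (corr (mapLF (f : R →+* S) B) g)
  have key : ∀ t : C →ₐ[k] S, t.comp i = f →
      t.comp ((corr (mapLF (i : R →+* C) B)).symm j) =
      (corr (mapLF (f : R →+* S) B)).symm (t.comp j) := by
    intro t ht
    rw [← corr_symm_comp]
    congr 3
    rw [← ht]
    rfl
  refine ⟨t, ⟨h1, ?_⟩, ?_⟩
  · rw [key t h1, h2, Equiv.symm_apply_apply]
  · rintro y ⟨hy1, hy2⟩
    apply h3
    refine ⟨hy1, ?_⟩
    rw [key y hy1] at hy2
    rw [← hy2, Equiv.apply_symm_apply]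

end coprod

end Pool.Agent.Helper7.LL
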