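import Mathlib
import Pool.Agent.Helper7.LL.Core

set_option autoImplicit false
set_option linter.unusedSimpArgs false

/-!
# Reduction rules for words in an L_{2-} family
-/

namespace Pool.Agent.Helper7.LL

namespace RF

section

variable {R : Type*} [Ring R]

lemma z1 {a b e h : R} (h1 : a * e = a) (h2 : h * b = b) (h3 : e * h = 0) : a * b = 0 := by
  rw [← h1, ← h2, mul_assoc, ← mul_assoc e, h3, zero_mul, mul_zero]

lemma z2 {a b e : R} (h1 : a * e = a) (h2 : e * b = 0) : a * b = 0 := by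
  rw [← h1, mul_assoc, h2, mul_zero]

lemma z3 {a b e : R} (h1 : e * b = b) (h2 : a * e = 0) : a * b = 0 := by
  rw [← h1, ← mul_assoc, h2, zero_mul]

variable (F : RF R)

lemma w_eq : F.w = 1 - F.v - F.u := by rw [← F.one]; abel

@[simp] lemma s_f_p : F.f * F.p = 0 := RF.z1 F.fv F.up F.vu
@[simp] lemma s_f_p_r (z : R) : F.f * (F.p * z) = 0 := by rw [← mul_assoc, s_f_p F]; simp
@[simp] lemma s_f_q : F.f * F.q = 0 := RF.z1 F.fv F.wq F.vw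
@[simp] lemma s_f_q_r (z : R) : F.f * (F.q * z) = 0 := by rw [← mul_assoc, s_f_q F]; simp
@[simp] lemma s_f_q' : F.f * F.q' = 0 := RF.z2 F.fv F.vq'
@[simp] lemma s_f_q'_r (z : R) : F.f * (F.q' * z) = 0 := by rw [← mul_assoc, s_f_q' F]; simp
@[simp] lemma s_f_u : F.f * F.u = 0 := RF.z1 F.fv F.uu F.vu
@[simp] lemma s_f_u_r (z : R) : F.f * (F.u * z) = 0 := by rw [← mul_assoc, s_f_u F]; simp
@[simp] lemma s_f'_p : F.f' * F.p = 0 := RF.z1 F.f'v F.up F.vu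
@[simp] lemma s_f'_p_r (z : R) : F.f' * (F.p * z) = 0 := by rw [← mul_assoc, s_f'_p F]; simp
@[simp] lemma s_f'_q : F.f' * F.q = 0 := RF.z1 F.f'v F.wq F.vw
@[simp] lemma s_f'_q_r (z : R) : F.f' * (F.q * z) = 0 := by rw [← mul_assoc, s_f'_q F]; simp
@[simp] lemma s_f'_q' : F.f' * F.q' = 0 := RF.z2 F.f'v F.vq'
@[simp] lemma s_f'_q'_r (z : R) : F.f' * (F.q' * z) = 0 := by rw [← mul_assoc, s_f'_q' F]; simp
@[simp] lemma s_f'_u : F.f' * F.u = 0 := RF.z1 F.f'v F.uu F.vu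
@[simp] lemma s_f'_u_r (z : R) : F.f' * (F.u * z) = 0 := by rw [← mul_assoc, s_f'_u F]; simp
@[simp] lemma s_d_p : F.d * F.p = 0 := RF.z1 F.dv F.up F.vu
@[simp] lemma s_d_p_r (z : R) : F.d * (F.p * z) = 0 := by rw [← mul_assoc, s_d_p F]; simp
@[simp] lemma s_d_q : F.d * F.q = 0 := RF.z1 F.dv F.wq F.vw
@[simp] lemma s_d_q_r (z : R) : F.d * (F.q * z) = 0 := by rw [← mul_assoc, s_d_q F]; simp
@[simp] lemma s_d_q' : F.d * F.q' = 0 := RF.z2 F.dv F.vq'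
@[simp] lemma s_d_q'_r (z : R) : F.d * (F.q' * z) = 0 := by rw [← mul_assoc, s_d_q' F]; simp
@[simp] lemma s_d_u : F.d * F.u = 0 := RF.z1 F.dv F.uu F.vu
@[simp] lemma s_d_u_r (z : R) : F.d * (F.u * z) = 0 := by rw [← mul_assoc, s_d_u F]; simp
@[simp] lemma s_d'_p : F.d' * F.p = 0 := RF.z1 F.d'v F.up F.vu
@[simp] lemma s_d'_p_r (z : R) : F.d' * (F.p * z) = 0 := by rw [← mul_assoc, s_d'_p F]; simp
@[simp] lemma s_d'_q : F.d' * F.q = 0 := RF.z1 F.d'v F.wq F.vw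
@[simp] lemma s_d'_q_r (z : R) : F.d' * (F.q * z) = 0 := by rw [← mul_assoc, s_d'_q F]; simp
@[simp] lemma s_d'_q' : F.d' * F.q' = 0 := RF.z2 F.d'v F.vq'
@[simp] lemma s_d'_q'_r (z : R) : F.d' * (F.q' * z) = 0 := by rw [← mul_assoc, s_d'_q' F]; simp
@[simp] lemma s_d'_u : F.d' * F.u = 0 := RF.z1 F.d'v F.uu F.vu
@[simp] lemma s_d'_u_r (z : R) : F.d' * (F.u * z) = 0 := by rw [← mul_assoc, s_d'_u F]; simp
@[simp] lemma s_G'_p : F.G' * F.p = 0 := RF.z1 F.G'v F.up F.vu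
@[simp] lemma s_G'_p_r (z : R) : F.G' * (F.p * z) = 0 := by rw [← mul_assoc, s_G'_p F]; simp
@[simp] lemma s_G'_q : F.G' * F.q = 0 := RF.z1 F.G'v F.wq F.vw
@[simp] lemma s_G'_q_r (z : R) : F.G' * (F.q * z) = 0 := by rw [← mul_assoc, s_G'_q F]; simp
@[simp] lemma s_G'_q' : F.G' * F.q' = 0 := RF.z2 F.G'v F.vq'
@[simp] lemma s_G'_q'_r (z : R) : F.G' * (F.q' * z) = 0 := by rw [← mul_assoc, s_G'_q' F]; simp
@[simp] lemma s_G'_u : F.G' * F.u = 0 := RF.z1 F.G'v F.uu F.vu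
@[simp] lemma s_G'_u_r (z : R) : F.G' * (F.u * z) = 0 := by rw [← mul_assoc, s_G'_u F]; simp
@[simp] lemma s_p'_f : F.p' * F.f = 0 := RF.z1 F.p'u F.vf F.uv
@[simp] lemma s_p'_f_r (z : R) : F.p' * (F.f * z) = 0 := by rw [← mul_assoc, s_p'_f F]; simp
@[simp] lemma s_p'_f' : F.p' * F.f' = 0 := RF.z1 F.p'u F.vf' F.uv
@[simp] lemma s_p'_f'_r (z : R) : F.p' * (F.f' * z) = 0 := by rw [← mul_assoc, s_p'_f' F]; simp
@[simp] lemma s_p'_d : F.p' * F.d = 0 := RF.z1 F.p'u F.vd F.uv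
@[simp] lemma s_p'_d_r (z : R) : F.p' * (F.d * z) = 0 := by rw [← mul_assoc, s_p'_d F]; simp
@[simp] lemma s_p'_d' : F.p' * F.d' = 0 := RF.z1 F.p'u F.vd' F.uv
@[simp] lemma s_p'_d'_r (z : R) : F.p' * (F.d' * z) = 0 := by rw [← mul_assoc, s_p'_d' F]; simp
@[simp] lemma s_p'_G : F.p' * F.G = 0 := RF.z1 F.p'u F.vG F.uv
@[simp] lemma s_p'_G_r (z : R) : F.p' * (F.G * z) = 0 := by rw [← mul_assoc, s_p'_G F]; simp
@[simp] lemma s_p'_q : F.p' * F.q = 0 := F.p'q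
@[simp] lemma s_p'_q_r (z : R) : F.p' * (F.q * z) = 0 := by rw [← mul_assoc, s_p'_q F]; simp
@[simp] lemma s_p'_v : F.p' * F.v = 0 := F.p'v
@[simp] lemma s_p'_v_r (z : R) : F.p' * (F.v * z) = 0 := by rw [← mul_assoc, s_p'_v F]; simp
@[simp] lemma s_q_f : F.q * F.f = 0 := RF.z3 F.vf F.qv
@[simp] lemma s_q_f_r (z : R) : F.q * (F.f * z) = 0 := by rw [← mul_assoc, s_q_f F]; simp
@[simp] lemma s_q_f' : F.q * F.f' = 0 := RF.z3 F.vf' F.qv
@[simp] lemma s_q_f'_r (z : R) : F.q * (F.f' * z) = 0 := by rw [← mul_assoc, s_q_f' F]; simp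
@[simp] lemma s_q_d : F.q * F.d = 0 := RF.z3 F.vd F.qv
@[simp] lemma s_q_d_r (z : R) : F.q * (F.d * z) = 0 := by rw [← mul_assoc, s_q_d F]; simp
@[simp] lemma s_q_d' : F.q * F.d' = 0 := RF.z3 F.vd' F.qv
@[simp] lemma s_q_d'_r (z : R) : F.q * (F.d' * z) = 0 := by rw [← mul_assoc, s_q_d' F]; simp
@[simp] lemma s_q_G : F.q * F.G = 0 := RF.z3 F.vG F.qv
@[simp] lemma s_q_G_r (z : R) : F.q * (F.G * z) = 0 := by rw [← mul_assoc, s_q_G F]; simp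
@[simp] lemma s_q_v : F.q * F.v = 0 := F.qv
@[simp] lemma s_q_v_r (z : R) : F.q * (F.v * z) = 0 := by rw [← mul_assoc, s_q_v F]; simp
@[simp] lemma s_q'_f : F.q' * F.f = 0 := RF.z1 F.q'w F.vf F.wv
@[simp] lemma s_q'_f_r (z : R) : F.q' * (F.f * z) = 0 := by rw [← mul_assoc, s_q'_f F]; simp
@[simp] lemma s_q'_f' : F.q' * F.f' = 0 := RF.z1 F.q'w F.vf' F.wv
@[simp] lemma s_q'_f'_r (z : R) : F.q' * (F.f' * z) = 0 := by rw [← mul_assoc, s_q'_f' F]; simp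
@[simp] lemma s_q'_d : F.q' * F.d = 0 := RF.z1 F.q'w F.vd F.wv
@[simp] lemma s_q'_d_r (z : R) : F.q' * (F.d * z) = 0 := by rw [← mul_assoc, s_q'_d F]; simp
@[simp] lemma s_q'_d' : F.q' * F.d' = 0 := RF.z1 F.q'w F.vd' F.wv
@[simp] lemma s_q'_d'_r (z : R) : F.q' * (F.d' * z) = 0 := by rw [← mul_assoc, s_q'_d' F]; simp
@[simp] lemma s_q'_G : F.q' * F.G = 0 := RF.z1 F.q'w F.vG F.wv
@[simp] lemma s_q'_G_r (z : R) : F.q' * (F.G * z) = 0 := by rw [← mul_assoc, s_q'_G F]; simp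
@[simp] lemma s_q'_p : F.q' * F.p = 0 := F.q'p
@[simp] lemma s_q'_p_r (z : R) : F.q' * (F.p * z) = 0 := by rw [← mul_assoc, s_q'_p F]; simp
@[simp] lemma s_q'_v : F.q' * F.v = 0 := F.q'v
@[simp] lemma s_q'_v_r (z : R) : F.q' * (F.v * z) = 0 := by rw [← mul_assoc, s_q'_v F]; simp
@[simp] lemma s_q'_u : F.q' * F.u = 0 := F.q'u
@[simp] lemma s_q'_u_r (z : R) : F.q' * (F.u * z) = 0 := by rw [← mul_assoc, s_q'_u F]; simp
@[simp] lemma s_v_p : F.v * F.p = 0 := F.vp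
@[simp] lemma s_v_p_r (z : R) : F.v * (F.p * z) = 0 := by rw [← mul_assoc, s_v_p F]; simp
@[simp] lemma s_v_q : F.v * F.q = 0 := F.vq
@[simp] lemma s_v_q_r (z : R) : F.v * (F.q * z) = 0 := by rw [← mul_assoc, s_v_q F]; simp
@[simp] lemma s_v_q' : F.v * F.q' = 0 := F.vq'
@[simp] lemma s_v_q'_r (z : R) : F.v * (F.q' * z) = 0 := by rw [← mul_assoc, s_v_q' F]; simp
@[simp] lemma s_v_u : F.v * F.u = 0 := F.vu
@[simp] lemma s_v_u_r (z : R) : F.v * (F.u * z) = 0 := by rw [← mul_assoc, s_v_u F]; simp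
@[simp] lemma s_u_f : F.u * F.f = 0 := RF.z1 F.uu F.vf F.uv
@[simp] lemma s_u_f_r (z : R) : F.u * (F.f * z) = 0 := by rw [← mul_assoc, s_u_f F]; simp
@[simp] lemma s_u_f' : F.u * F.f' = 0 := RF.z1 F.uu F.vf' F.uv
@[simp] lemma s_u_f'_r (z : R) : F.u * (F.f' * z) = 0 := by rw [← mul_assoc, s_u_f' F]; simp
@[simp] lemma s_u_d : F.u * F.d = 0 := RF.z1 F.uu F.vd F.uv
@[simp] lemma s_u_d_r (z : R) : F.u * (F.d * z) = 0 := by rw [← mul_assoc, s_u_d F]; simp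
@[simp] lemma s_u_d' : F.u * F.d' = 0 := RF.z1 F.uu F.vd' F.uv
@[simp] lemma s_u_d'_r (z : R) : F.u * (F.d' * z) = 0 := by rw [← mul_assoc, s_u_d' F]; simp
@[simp] lemma s_u_G : F.u * F.G = 0 := RF.z1 F.uu F.vG F.uv
@[simp] lemma s_u_G_r (z : R) : F.u * (F.G * z) = 0 := by rw [← mul_assoc, s_u_G F]; simp
@[simp] lemma s_u_q : F.u * F.q = 0 := F.uq
@[simp] lemma s_u_q_r (z : R) : F.u * (F.q * z) = 0 := by rw [← mul_assoc, s_u_q F]; simp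
@[simp] lemma s_u_v : F.u * F.v = 0 := F.uv
@[simp] lemma s_u_v_r (z : R) : F.u * (F.v * z) = 0 := by rw [← mul_assoc, s_u_v F]; simp
@[simp] lemma s_v_f : F.v * F.f = F.f := F.vf
@[simp] lemma s_v_f_r (z : R) : F.v * (F.f * z) = F.f * z := by rw [← mul_assoc, s_v_f F]
@[simp] lemma s_v_f' : F.v * F.f' = F.f' := F.vf'
@[simp] lemma s_v_f'_r (z : R) : F.v * (F.f' * z) = F.f' * z := by rw [← mul_assoc, s_v_f' F]
@[simp] lemma s_v_d : F.v * F.d = F.d := F.vd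
@[simp] lemma s_v_d_r (z : R) : F.v * (F.d * z) = F.d * z := by rw [← mul_assoc, s_v_d F]
@[simp] lemma s_v_d' : F.v * F.d' = F.d' := F.vd'
@[simp] lemma s_v_d'_r (z : R) : F.v * (F.d' * z) = F.d' * z := by rw [← mul_assoc, s_v_d' F]
@[simp] lemma s_v_G : F.v * F.G = F.G := F.vG
@[simp] lemma s_v_G_r (z : R) : F.v * (F.G * z) = F.G * z := by rw [← mul_assoc, s_v_G F]
@[simp] lemma s_f_v : F.f * F.v = F.f := F.fv
@[simp] lemma s_f_v_r (z : R) : F.f * (F.v * z) = F.f * z := by rw [← mul_assoc, s_f_v F]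
@[simp] lemma s_f'_v : F.f' * F.v = F.f' := F.f'v
@[simp] lemma s_f'_v_r (z : R) : F.f' * (F.v * z) = F.f' * z := by rw [← mul_assoc, s_f'_v F]
@[simp] lemma s_d_v : F.d * F.v = F.d := F.dv
@[simp] lemma s_d_v_r (z : R) : F.d * (F.v * z) = F.d * z := by rw [← mul_assoc, s_d_v F]
@[simp] lemma s_d'_v : F.d' * F.v = F.d' := F.d'v
@[simp] lemma s_d'_v_r (z : R) : F.d' * (F.v * z) = F.d' * z := by rw [← mul_assoc, s_d'_v F]
@[simp] lemma s_G'_v : F.G' * F.v = F.G' := F.G'v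
@[simp] lemma s_G'_v_r (z : R) : F.G' * (F.v * z) = F.G' * z := by rw [← mul_assoc, s_G'_v F]
@[simp] lemma s_v_v : F.v * F.v = F.v := F.vv
@[simp] lemma s_v_v_r (z : R) : F.v * (F.v * z) = F.v * z := by rw [← mul_assoc, s_v_v F]
@[simp] lemma s_u_u : F.u * F.u = F.u := F.uu
@[simp] lemma s_u_u_r (z : R) : F.u * (F.u * z) = F.u * z := by rw [← mul_assoc, s_u_u F]
@[simp] lemma s_u_p : F.u * F.p = F.p := F.up
@[simp] lemma s_u_p_r (z : R) : F.u * (F.p * z) = F.p * z := by rw [← mul_assoc, s_u_p F]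
@[simp] lemma s_p'_u : F.p' * F.u = F.p' := F.p'u
@[simp] lemma s_p'_u_r (z : R) : F.p' * (F.u * z) = F.p' * z := by rw [← mul_assoc, s_p'_u F]
@[simp] lemma s_f'_f : F.f' * F.f = F.v := F.ff
@[simp] lemma s_f'_f_r (z : R) : F.f' * (F.f * z) = F.v * z := by rw [← mul_assoc, s_f'_f F]
@[simp] lemma s_f'_d : F.f' * F.d = 0 := F.fd
@[simp] lemma s_f'_d_r (z : R) : F.f' * (F.d * z) = 0 := by rw [← mul_assoc, s_f'_d F]; simp
@[simp] lemma s_f'_G : F.f' * F.G = 0 := F.fG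
@[simp] lemma s_f'_G_r (z : R) : F.f' * (F.G * z) = 0 := by rw [← mul_assoc, s_f'_G F]; simp
@[simp] lemma s_d'_f : F.d' * F.f = 0 := F.df
@[simp] lemma s_d'_f_r (z : R) : F.d' * (F.f * z) = 0 := by rw [← mul_assoc, s_d'_f F]; simp
@[simp] lemma s_d'_d : F.d' * F.d = F.v := F.dd
@[simp] lemma s_d'_d_r (z : R) : F.d' * (F.d * z) = F.v * z := by rw [← mul_assoc, s_d'_d F]
@[simp] lemma s_d'_G : F.d' * F.G = 0 := F.dG
@[simp] lemma s_d'_G_r (z : R) : F.d' * (F.G * z) = 0 := by rw [← mul_assoc, s_d'_G F]; simp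
@[simp] lemma s_G'_f : F.G' * F.f = 0 := F.Gf
@[simp] lemma s_G'_f_r (z : R) : F.G' * (F.f * z) = 0 := by rw [← mul_assoc, s_G'_f F]; simp
@[simp] lemma s_G'_d : F.G' * F.d = 0 := F.Gd
@[simp] lemma s_G'_d_r (z : R) : F.G' * (F.d * z) = 0 := by rw [← mul_assoc, s_G'_d F]; simp
@[simp] lemma s_G'_G : F.G' * F.G = 1 := F.GG
@[simp] lemma s_G'_G_r (z : R) : F.G' * (F.G * z) = z := by rw [← mul_assoc, s_G'_G F]; simp
@[simp] lemma s_p'_p : F.p' * F.p = 1 := F.pp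
@[simp] lemma s_p'_p_r (z : R) : F.p' * (F.p * z) = z := by rw [← mul_assoc, s_p'_p F]; simp
@[simp] lemma s_q'_q : F.q' * F.q = 1 - F.v := by rw [F.qq, ← F.one]; abel
@[simp] lemma s_q'_q_r (z : R) : F.q' * (F.q * z) = (1 - F.v) * z := by rw [← mul_assoc, s_q'_q F]
@[simp] lemma s_p_p' : F.p * F.p' = F.u := F.pu
@[simp] lemma s_p_p'_r (z : R) : F.p * (F.p' * z) = F.u * z := by rw [← mul_assoc, s_p_p' F]
@[simp] lemma s_q_q' : F.q * F.q' = 1 - F.v - F.u := by rw [F.qw, ← F.one]; abel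
@[simp] lemma s_q_q'_r (z : R) : F.q * (F.q' * z) = (1 - F.v - F.u) * z := by rw [← mul_assoc, s_q_q' F]
@[simp] lemma s_G_G' : F.G * F.G' = F.v - F.f * F.f' - F.d * F.d' := by rw [← F.vsum]; abel
@[simp] lemma s_G_G'_r (z : R) : F.G * (F.G' * z) = (F.v - F.f * F.f' - F.d * F.d') * z := by rw [← mul_assoc, s_G_G' F]

end

end RF

end Pool.Agent.Helper7.LL
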