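import Mathlib
import Pool.Agent.Helper7.LL.Rules

set_option autoImplicit false
set_option linter.unusedSimpArgs false

/-!
# The L_2 family and the involution of an L_{2-} family
-/

namespace Pool.Agent.Helper7.LL

section

variable {R : Type*} [Ring R] (F : RF R)

/-- `Y` -/
def ioY : R := F.d * F.f' + F.G * F.p' + F.p * (F.w + F.d' + F.p * F.G')
/-- `Y*` -/
def ioY' : R := F.f * F.d' + F.p * F.G' + (F.w + F.d + F.G * F.p') * F.p'

/-- The L_2 family of an L_{2-} family. -/
def io : LF R where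
  x := F.f + F.q
  x' := F.f' + F.q'
  y := ioY F
  y' := ioY' F
  xx := by
    simp only [add_mul, mul_add, RF.s_f'_f, RF.s_f'_q, RF.s_q'_f, RF.s_q'_q]; abel
  yy := by
    simp [ioY, ioY', F.w_eq, add_mul, mul_add, mul_assoc, sub_mul, mul_sub]; abel
  xy := by
    simp [ioY, ioY', F.w_eq, add_mul, mul_add, mul_assoc, sub_mul, mul_sub]
  yx := by
    simp [ioY, ioY', F.w_eq, add_mul, mul_add, mul_assoc, sub_mul, mul_sub]
  sum := by
    simp [ioY, ioY', F.w_eq, add_mul, mul_add, mul_assoc, sub_mul, mul_sub]; abel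

/-- auxiliary -/
def siT : R := F.q + F.d' + F.p * F.G'
/-- auxiliary -/
def siT' : R := F.q' + F.d + F.G * F.p'

lemma siT_siT' : siT F * siT' F = 1 := by
  simp [siT, siT', add_mul, mul_add, mul_assoc, sub_mul, mul_sub]; abel

lemma siT'_siT : siT' F * siT F = 1 - F.f * F.f' := by
  simp [siT, siT', add_mul, mul_add, mul_assoc, sub_mul, mul_sub]

lemma siT_f : siT F * F.f = 0 := by
  simp [siT, siT', add_mul, mul_add, mul_assoc, sub_mul, mul_sub]

lemma f'_siT' : F.f' * siT' F = 0 := by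
  simp [siT, siT', add_mul, mul_add, mul_assoc, sub_mul, mul_sub]

/-- The involution. -/
def sig : RF R where
  v := F.u + F.w
  u := F.d * F.d' + F.G * F.G'
  w := F.f * F.f'
  f := F.q
  f' := F.q'
  d := F.p * F.q
  d' := F.q' * F.p'
  G := F.p * F.f' + F.p * (F.p * siT F)
  G' := F.f * F.p' + siT' F * F.p' * F.p'
  p := F.d * F.f' + F.G * siT F
  p' := F.f * F.d' + siT' F * F.G'
  q := F.f
  q' := F.f'
  vu := by simp [siT, siT', F.w_eq, add_mul, mul_add, mul_assoc, sub_mul, mul_sub]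
  uv := by simp [siT, siT', F.w_eq, add_mul, mul_add, mul_assoc, sub_mul, mul_sub]
  vw := by simp [siT, siT', F.w_eq, add_mul, mul_add, mul_assoc, sub_mul, mul_sub]
  wv := by simp [siT, siT', F.w_eq, add_mul, mul_add, mul_assoc, sub_mul, mul_sub]
  uw := by simp [siT, siT', F.w_eq, add_mul, mul_add, mul_assoc, sub_mul, mul_sub]
  wu := by simp [siT, siT', F.w_eq, add_mul, mul_add, mul_assoc, sub_mul, mul_sub]
  one := by simp [siT, siT', F.w_eq, add_mul, mul_add, mul_assoc, sub_mul, mul_sub]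
  fv := by simp [siT, siT', F.w_eq, add_mul, mul_add, mul_assoc, sub_mul, mul_sub]
  vf' := by simp [siT, siT', F.w_eq, add_mul, mul_add, mul_assoc, sub_mul, mul_sub]
  dv := by simp [siT, siT', F.w_eq, add_mul, mul_add, mul_assoc, sub_mul, mul_sub]
  vd' := by simp [siT, siT', F.w_eq, add_mul, mul_add, mul_assoc, sub_mul, mul_sub]
  ff := by simp [siT, siT', F.w_eq, add_mul, mul_add, mul_assoc, sub_mul, mul_sub]
  fd := by simp [siT, siT', F.w_eq, add_mul, mul_add, mul_assoc, sub_mul, mul_sub]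
  fG := by simp [siT, siT', F.w_eq, add_mul, mul_add, mul_assoc, sub_mul, mul_sub]
  df := by simp [siT, siT', F.w_eq, add_mul, mul_add, mul_assoc, sub_mul, mul_sub]
  dd := by simp [siT, siT', F.w_eq, add_mul, mul_add, mul_assoc, sub_mul, mul_sub]
  dG := by simp [siT, siT', F.w_eq, add_mul, mul_add, mul_assoc, sub_mul, mul_sub]
  Gf := by simp [siT, siT', F.w_eq, add_mul, mul_add, mul_assoc, sub_mul, mul_sub]
  Gd := by simp [siT, siT', F.w_eq, add_mul, mul_add, mul_assoc, sub_mul, mul_sub]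
  GG := by simp [siT, siT', F.w_eq, add_mul, mul_add, mul_assoc, sub_mul, mul_sub]
  vsum := by simp [siT, siT', F.w_eq, add_mul, mul_add, mul_assoc, sub_mul, mul_sub]; abel
  pp := by simp [siT, siT', F.w_eq, add_mul, mul_add, mul_assoc, sub_mul, mul_sub]
  pu := by simp [siT, siT', F.w_eq, add_mul, mul_add, mul_assoc, sub_mul, mul_sub]; abel
  qv := by simp [siT, siT', F.w_eq, add_mul, mul_add, mul_assoc, sub_mul, mul_sub]
  vq' := by simp [siT, siT', F.w_eq, add_mul, mul_add, mul_assoc, sub_mul, mul_sub]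
  qq := by simp [siT, siT', F.w_eq, add_mul, mul_add, mul_assoc, sub_mul, mul_sub]
  qw := by simp [siT, siT', F.w_eq, add_mul, mul_add, mul_assoc, sub_mul, mul_sub]

lemma io_sig : io (sig F) = io F := by
  apply LF.ext
  · simp [io, sig]; abel
  · simp [io, sig]; abel
  · simp [io, sig, ioY, siT, siT', F.w_eq, add_mul, mul_add, mul_assoc, sub_mul, mul_sub]; abel
  · simp [io, sig, ioY', siT, siT', F.w_eq, add_mul, mul_add, mul_assoc, sub_mul, mul_sub]; abel

lemma sig_sig : sig (sig F) = F := by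
  apply RF.ext <;>
    simp [sig, siT, siT', F.w_eq, add_mul, mul_add, mul_assoc, sub_mul, mul_sub] <;> abel

end

end Pool.Agent.Helper7.LL
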