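import Mathlib
import Pool.Agent.Helper7.LL.Io

set_option autoImplicit false
set_option linter.unusedSimpArgs false

/-!
# Identities in an L_{2-} family: commutation with `v`, the isometry `κ`, generation
-/

namespace Pool.Agent.Helper7.LL

section

variable {R : Type*} [Ring R] (F : RF R)

lemma x_comm : F.v * (io F).x = (io F).x * F.v := by
  simp [io, mul_add, add_mul]

lemma x'_comm : F.v * (io F).x' = (io F).x' * F.v := by
  simp [io, mul_add, add_mul]

lemma y0_comm : F.v * ((io F).y * (io F).x * (io F).x') = ((io F).y * (io F).x * (io F).x') * F.v := by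
  simp [io, ioY, F.w_eq, add_mul, mul_add, mul_assoc, sub_mul, mul_sub]

lemma y0'_comm : F.v * ((io F).x * (io F).x' * (io F).y') =
    ((io F).x * (io F).x' * (io F).y') * F.v := by
  simp [io, ioY', F.w_eq, add_mul, mul_add, mul_assoc, sub_mul, mul_sub]

lemma y1_comm : F.v * ((io F).y * (io F).y * (io F).y') =
    ((io F).y * (io F).y * (io F).y') * (1 - F.v) := by
  simp [io, ioY, ioY', F.w_eq, add_mul, mul_add, mul_assoc, sub_mul, mul_sub] <;> abel

lemma y1'_comm : F.v * ((io F).y * (io F).y' * (io F).y') =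
    ((io F).y * (io F).y' * (io F).y') * (1 - F.v) := by
  simp [io, ioY, ioY', F.w_eq, add_mul, mul_add, mul_assoc, sub_mul, mul_sub] <;> abel

/-- `κ` -/
def kap : R := F.d * F.d' + F.f * F.f' * F.f' + F.G * F.d' * F.f' + F.G * F.u +
  F.G * F.q * F.p * F.G' + F.G * F.q * F.q * F.p * F.G' * F.f' + F.G * F.q * F.q * F.w

/-- `κ*` -/
def kap' : R := F.d * F.d' + F.f * F.f * F.f' + F.f * F.d * F.G' + F.u * F.G' +
  F.G * F.p' * F.q' * F.G' + F.f * F.G * F.p' * F.q' * F.q' * F.G' + F.w * F.q' * F.q' * F.G'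

lemma kap_kap' : kap F * kap' F = F.v := by
  simp [kap, kap', F.w_eq, add_mul, mul_add, mul_assoc, sub_mul, mul_sub] <;> abel

lemma kap'_kap : kap' F * kap F = 1 := by
  simp [kap, kap', F.w_eq, add_mul, mul_add, mul_assoc, sub_mul, mul_sub] <;> abel

end

end Pool.Agent.Helper7.LL
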