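import Mathlib
import Pool.Agent.Helper7.LL.Kap

set_option autoImplicit false
set_option linter.unusedSimpArgs false

/-!
# Generation of an L_{2-} family by its L_2 family and `v`
-/

namespace Pool.Agent.Helper7.LL

section

variable {R : Type*} [Ring R] (F : RF R)

/-- all members of the family lie in `S` -/
structure AllMem (S : Subring R) : Prop where
  v : F.v ∈ S
  u : F.u ∈ S
  w : F.w ∈ S
  f : F.f ∈ S
  f' : F.f' ∈ S
  d : F.d ∈ S
  d' : F.d' ∈ S
  G : F.G ∈ S
  G' : F.G' ∈ S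
  p : F.p ∈ S
  p' : F.p' ∈ S
  q : F.q ∈ S
  q' : F.q' ∈ S

lemma allMem_of (S : Subring R) (hv : F.v ∈ S) (hx : (io F).x ∈ S) (hx' : (io F).x' ∈ S)
    (hy : (io F).y ∈ S) (hy' : (io F).y' ∈ S) : AllMem F S := by
  have hf : F.f ∈ S := by
    have h0 : (io F).x * F.v = F.f := by
      simp [io, ioY, ioY', F.w_eq, add_mul, mul_add, mul_assoc, sub_mul, mul_sub] <;> abel
    rw [← h0]
    exact S.mul_mem hx hv
  have hf' : F.f' ∈ S := by
    have h0 : F.v * (io F).x' = F.f' := by
      simp [io, ioY, ioY', F.w_eq, add_mul, mul_add, mul_assoc, sub_mul, mul_sub] <;> abel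
    rw [← h0]
    exact S.mul_mem hv hx'
  have hq : F.q ∈ S := by
    have h0 : (io F).x - F.f = F.q := by
      simp [io, ioY, ioY', F.w_eq, add_mul, mul_add, mul_assoc, sub_mul, mul_sub] <;> abel
    rw [← h0]
    exact S.sub_mem hx hf
  have hq' : F.q' ∈ S := by
    have h0 : (io F).x' - F.f' = F.q' := by
      simp [io, ioY, ioY', F.w_eq, add_mul, mul_add, mul_assoc, sub_mul, mul_sub] <;> abel
    rw [← h0]
    exact S.sub_mem hx' hf'
  have hw : F.w ∈ S := by
    have h0 : F.q * F.q' = F.w := by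
      simp [io, ioY, ioY', F.w_eq, add_mul, mul_add, mul_assoc, sub_mul, mul_sub] <;> abel
    rw [← h0]
    exact S.mul_mem hq hq'
  have hu : F.u ∈ S := by
    have h0 : 1 - F.v - F.w = F.u := by
      simp [io, ioY, ioY', F.w_eq, add_mul, mul_add, mul_assoc, sub_mul, mul_sub] <;> abel
    rw [← h0]
    exact S.sub_mem (S.sub_mem S.one_mem hv) hw
  have hd : F.d ∈ S := by
    have h0 : (io F).y * (io F).x * (io F).x' * F.f = F.d := by
      simp [io, ioY, ioY', F.w_eq, add_mul, mul_add, mul_assoc, sub_mul, mul_sub] <;> abel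
    rw [← h0]
    exact S.mul_mem (S.mul_mem (S.mul_mem hy hx) hx') hf
  have hd' : F.d' ∈ S := by
    have h0 : F.f' * ((io F).x * (io F).x' * (io F).y') = F.d' := by
      simp [io, ioY, ioY', F.w_eq, add_mul, mul_add, mul_assoc, sub_mul, mul_sub] <;> abel
    rw [← h0]
    exact S.mul_mem hf' (S.mul_mem (S.mul_mem hx hx') hy')
  have hpw : F.p * F.w ∈ S := by
    have h0 : (io F).y * (io F).x * (io F).x' * F.w = F.p * F.w := by
      simp [io, ioY, ioY', F.w_eq, add_mul, mul_add, mul_assoc, sub_mul, mul_sub] <;> abel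
    rw [← h0]
    exact S.mul_mem (S.mul_mem (S.mul_mem hy hx) hx') hw
  have hwp' : F.w * F.p' ∈ S := by
    have h0 : F.w * ((io F).x * (io F).x' * (io F).y') = F.w * F.p' := by
      simp [io, ioY, ioY', F.w_eq, add_mul, mul_add, mul_assoc, sub_mul, mul_sub] <;> abel
    rw [← h0]
    exact S.mul_mem hw (S.mul_mem (S.mul_mem hx hx') hy')
  have hpdG : F.p * (F.d' + F.p * F.G') ∈ S := by
    have h0 : (io F).y * F.v - F.d * F.f' = F.p * (F.d' + F.p * F.G') := by
      simp [io, ioY, ioY', F.w_eq, add_mul, mul_add, mul_assoc, sub_mul, mul_sub] <;> abel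
    rw [← h0]
    exact S.sub_mem (S.mul_mem hy hv) (S.mul_mem hd hf')
  have hpv : F.p * F.v ∈ S := by
    have h0 : F.p * (F.d' + F.p * F.G') * F.d = F.p * F.v := by
      simp [io, ioY, ioY', F.w_eq, add_mul, mul_add, mul_assoc, sub_mul, mul_sub] <;> abel
    rw [← h0]
    exact S.mul_mem hpdG hd
  have hppG' : F.p * F.p * F.G' ∈ S := by
    have h0 : F.p * (F.d' + F.p * F.G') - F.p * F.v * F.d' = F.p * F.p * F.G' := by
      simp [io, ioY, ioY', F.w_eq, add_mul, mul_add, mul_assoc, sub_mul, mul_sub] <;> abel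
    rw [← h0]
    exact S.sub_mem hpdG (S.mul_mem hpv hd')
  have hGp' : F.G * F.p' ∈ S := by
    have h0 : (io F).y * (1 - F.v) - F.p * F.w = F.G * F.p' := by
      simp [io, ioY, ioY', F.w_eq, add_mul, mul_add, mul_assoc, sub_mul, mul_sub] <;> abel
    rw [← h0]
    exact S.sub_mem (S.mul_mem hy (S.sub_mem S.one_mem hv)) hpw
  have hpu : F.p * F.u ∈ S := by
    have h0 : F.p * F.p * F.G' * (F.G * F.p') = F.p * F.u := by
      simp [io, ioY, ioY', F.w_eq, add_mul, mul_add, mul_assoc, sub_mul, mul_sub] <;> abel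
    rw [← h0]
    exact S.mul_mem hppG' hGp'
  have hp : F.p ∈ S := by
    have h0 : F.p * F.v + F.p * F.u + F.p * F.w = F.p := by
      simp [io, ioY, ioY', F.w_eq, add_mul, mul_add, mul_assoc, sub_mul, mul_sub] <;> abel
    rw [← h0]
    exact S.add_mem (S.add_mem hpv hpu) hpw
  have hG : F.G ∈ S := by
    have h0 : F.G * F.p' * F.p = F.G := by
      simp [io, ioY, ioY', F.w_eq, add_mul, mul_add, mul_assoc, sub_mul, mul_sub] <;> abel
    rw [← h0]
    exact S.mul_mem hGp' hp
  have hpG' : F.p * F.G' ∈ S := by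
    have h0 : (1 - F.v) * (io F).y' - F.w * F.p' = F.p * F.G' := by
      simp [io, ioY, ioY', F.w_eq, add_mul, mul_add, mul_assoc, sub_mul, mul_sub] <;> abel
    rw [← h0]
    exact S.sub_mem (S.mul_mem (S.sub_mem S.one_mem hv) hy') hwp'
  have hvp' : F.v * F.p' ∈ S := by
    have h0 : F.d' * (F.v * (io F).y') = F.v * F.p' := by
      simp [io, ioY, ioY', F.w_eq, add_mul, mul_add, mul_assoc, sub_mul, mul_sub] <;> abel
    rw [← h0]
    exact S.mul_mem hd' (S.mul_mem hv hy')
  have hGp'p' : F.G * F.p' * F.p' ∈ S := by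
    have h0 : F.v * (io F).y' - F.f * F.d' - F.d * (F.v * F.p') = F.G * F.p' * F.p' := by
      simp [io, ioY, ioY', F.w_eq, add_mul, mul_add, mul_assoc, sub_mul, mul_sub] <;> abel
    rw [← h0]
    exact S.sub_mem (S.sub_mem (S.mul_mem hv hy') (S.mul_mem hf hd')) (S.mul_mem hd hvp')
  have hup' : F.u * F.p' ∈ S := by
    have h0 : F.p * F.G' * (F.G * F.p' * F.p') = F.u * F.p' := by
      simp [io, ioY, ioY', F.w_eq, add_mul, mul_add, mul_assoc, sub_mul, mul_sub] <;> abel
    rw [← h0]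
    exact S.mul_mem hpG' hGp'p'
  have hp' : F.p' ∈ S := by
    have h0 : F.v * F.p' + F.u * F.p' + F.w * F.p' = F.p' := by
      simp [io, ioY, ioY', F.w_eq, add_mul, mul_add, mul_assoc, sub_mul, mul_sub] <;> abel
    rw [← h0]
    exact S.add_mem (S.add_mem hvp' hup') hwp'
  have hG' : F.G' ∈ S := by
    have h0 : F.p' * (F.p * F.G') = F.G' := by
      simp [io, ioY, ioY', F.w_eq, add_mul, mul_add, mul_assoc, sub_mul, mul_sub] <;> abel
    rw [← h0]
    exact S.mul_mem hp' hpG'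
  exact ⟨hv, hu, hw, hf, hf', hd, hd', hG, hG', hp, hp', hq, hq'⟩

end

end Pool.Agent.Helper7.LL
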