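import Mathlib
import Pool.Agent.Helper7.LL.Kap

set_option autoImplicit false
set_option linter.unusedSimpArgs false

/-!
# An L_{2-} family in the 2 x 2 matrices over a ring with an L_2 family
-/

namespace Pool.Agent.Helper7.LL

section

variable {R : Type*} [Ring R] (A : LF R)

lemma yyq : A.y * A.y' = 1 - A.x * A.x' := by rw [← A.sum]; abel

lemma yyqr (z : R) : A.y * (A.y' * z) = z - A.x * (A.x' * z) := by
  rw [← mul_assoc, yyq, sub_mul, one_mul, mul_assoc]

/-- The L_{2-} family in the matrices. -/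
def mat : RF (Matrix (Fin 2) (Fin 2) R) where
  v := !![1, 0; 0, 0]
  u := !![0, 0; 0, A.y * A.y']
  w := !![0, 0; 0, A.x * A.x']
  f := !![A.x, 0; 0, 0]
  f' := !![A.x', 0; 0, 0]
  d := !![A.y * A.x, 0; 0, 0]
  d' := !![A.x' * A.y', 0; 0, 0]
  G := !![A.y * A.y * A.y * A.x, A.y * A.y * (A.y * A.y * A.y' + A.x * A.x'); 0, 0]
  G' := !![A.x' * A.y' * A.y' * A.y', 0; (A.y * A.y' * A.y' + A.x * A.x') * A.y' * A.y', 0]
  p := !![0, 0; A.y * A.y * A.x, A.y * (A.y * A.y * A.y' + A.x * A.x')]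
  p' := !![0, A.x' * A.y' * A.y'; 0, (A.y * A.y' * A.y' + A.x * A.x') * A.y']
  q := !![0, 0; 0, A.x]
  q' := !![0, 0; 0, A.x']
  vu := by
    ext i j
    fin_cases i <;> fin_cases j <;>
      simp [Matrix.mul_apply, Fin.sum_univ_two, mul_assoc, x'r, y'r, xyr, yxr, A.xx, A.yy, A.xy,
        A.yx, yyq, yyqr, mul_add, add_mul, mul_sub, sub_mul] <;> abel
  uv := by
    ext i j
    fin_cases i <;> fin_cases j <;>
      simp [Matrix.mul_apply, Fin.sum_univ_two, mul_assoc, x'r, y'r, xyr, yxr, A.xx, A.yy, A.xy,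
        A.yx, yyq, yyqr, mul_add, add_mul, mul_sub, sub_mul] <;> abel
  vw := by
    ext i j
    fin_cases i <;> fin_cases j <;>
      simp [Matrix.mul_apply, Fin.sum_univ_two, mul_assoc, x'r, y'r, xyr, yxr, A.xx, A.yy, A.xy,
        A.yx, yyq, yyqr, mul_add, add_mul, mul_sub, sub_mul] <;> abel
  wv := by
    ext i j
    fin_cases i <;> fin_cases j <;>
      simp [Matrix.mul_apply, Fin.sum_univ_two, mul_assoc, x'r, y'r, xyr, yxr, A.xx, A.yy, A.xy,
        A.yx, yyq, yyqr, mul_add, add_mul, mul_sub, sub_mul] <;> abel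
  uw := by
    ext i j
    fin_cases i <;> fin_cases j <;>
      simp [Matrix.mul_apply, Fin.sum_univ_two, mul_assoc, x'r, y'r, xyr, yxr, A.xx, A.yy, A.xy,
        A.yx, yyq, yyqr, mul_add, add_mul, mul_sub, sub_mul] <;> abel
  wu := by
    ext i j
    fin_cases i <;> fin_cases j <;>
      simp [Matrix.mul_apply, Fin.sum_univ_two, mul_assoc, x'r, y'r, xyr, yxr, A.xx, A.yy, A.xy,
        A.yx, yyq, yyqr, mul_add, add_mul, mul_sub, sub_mul] <;> abel
  one := by
    ext i j
    fin_cases i <;> fin_cases j <;>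
      simp [Matrix.mul_apply, Fin.sum_univ_two, mul_assoc, x'r, y'r, xyr, yxr, A.xx, A.yy, A.xy,
        A.yx, yyq, yyqr, mul_add, add_mul, mul_sub, sub_mul] <;> abel
  fv := by
    ext i j
    fin_cases i <;> fin_cases j <;>
      simp [Matrix.mul_apply, Fin.sum_univ_two, mul_assoc, x'r, y'r, xyr, yxr, A.xx, A.yy, A.xy,
        A.yx, yyq, yyqr, mul_add, add_mul, mul_sub, sub_mul] <;> abel
  vf' := by
    ext i j
    fin_cases i <;> fin_cases j <;>
      simp [Matrix.mul_apply, Fin.sum_univ_two, mul_assoc, x'r, y'r, xyr, yxr, A.xx, A.yy, A.xy,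
        A.yx, yyq, yyqr, mul_add, add_mul, mul_sub, sub_mul] <;> abel
  dv := by
    ext i j
    fin_cases i <;> fin_cases j <;>
      simp [Matrix.mul_apply, Fin.sum_univ_two, mul_assoc, x'r, y'r, xyr, yxr, A.xx, A.yy, A.xy,
        A.yx, yyq, yyqr, mul_add, add_mul, mul_sub, sub_mul] <;> abel
  vd' := by
    ext i j
    fin_cases i <;> fin_cases j <;>
      simp [Matrix.mul_apply, Fin.sum_univ_two, mul_assoc, x'r, y'r, xyr, yxr, A.xx, A.yy, A.xy,
        A.yx, yyq, yyqr, mul_add, add_mul, mul_sub, sub_mul] <;> abel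
  ff := by
    ext i j
    fin_cases i <;> fin_cases j <;>
      simp [Matrix.mul_apply, Fin.sum_univ_two, mul_assoc, x'r, y'r, xyr, yxr, A.xx, A.yy, A.xy,
        A.yx, yyq, yyqr, mul_add, add_mul, mul_sub, sub_mul] <;> abel
  fd := by
    ext i j
    fin_cases i <;> fin_cases j <;>
      simp [Matrix.mul_apply, Fin.sum_univ_two, mul_assoc, x'r, y'r, xyr, yxr, A.xx, A.yy, A.xy,
        A.yx, yyq, yyqr, mul_add, add_mul, mul_sub, sub_mul] <;> abel
  fG := by
    ext i j
    fin_cases i <;> fin_cases j <;>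
      simp [Matrix.mul_apply, Fin.sum_univ_two, mul_assoc, x'r, y'r, xyr, yxr, A.xx, A.yy, A.xy,
        A.yx, yyq, yyqr, mul_add, add_mul, mul_sub, sub_mul] <;> abel
  df := by
    ext i j
    fin_cases i <;> fin_cases j <;>
      simp [Matrix.mul_apply, Fin.sum_univ_two, mul_assoc, x'r, y'r, xyr, yxr, A.xx, A.yy, A.xy,
        A.yx, yyq, yyqr, mul_add, add_mul, mul_sub, sub_mul] <;> abel
  dd := by
    ext i j
    fin_cases i <;> fin_cases j <;>
      simp [Matrix.mul_apply, Fin.sum_univ_two, mul_assoc, x'r, y'r, xyr, yxr, A.xx, A.yy, A.xy,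
        A.yx, yyq, yyqr, mul_add, add_mul, mul_sub, sub_mul] <;> abel
  dG := by
    ext i j
    fin_cases i <;> fin_cases j <;>
      simp [Matrix.mul_apply, Fin.sum_univ_two, mul_assoc, x'r, y'r, xyr, yxr, A.xx, A.yy, A.xy,
        A.yx, yyq, yyqr, mul_add, add_mul, mul_sub, sub_mul] <;> abel
  Gf := by
    ext i j
    fin_cases i <;> fin_cases j <;>
      simp [Matrix.mul_apply, Fin.sum_univ_two, mul_assoc, x'r, y'r, xyr, yxr, A.xx, A.yy, A.xy,
        A.yx, yyq, yyqr, mul_add, add_mul, mul_sub, sub_mul] <;> abel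
  Gd := by
    ext i j
    fin_cases i <;> fin_cases j <;>
      simp [Matrix.mul_apply, Fin.sum_univ_two, mul_assoc, x'r, y'r, xyr, yxr, A.xx, A.yy, A.xy,
        A.yx, yyq, yyqr, mul_add, add_mul, mul_sub, sub_mul] <;> abel
  GG := by
    ext i j
    fin_cases i <;> fin_cases j <;>
      simp [Matrix.mul_apply, Fin.sum_univ_two, mul_assoc, x'r, y'r, xyr, yxr, A.xx, A.yy, A.xy,
        A.yx, yyq, yyqr, mul_add, add_mul, mul_sub, sub_mul] <;> abel
  vsum := by
    ext i j
    fin_cases i <;> fin_cases j <;>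
      simp [Matrix.mul_apply, Fin.sum_univ_two, mul_assoc, x'r, y'r, xyr, yxr, A.xx, A.yy, A.xy,
        A.yx, yyq, yyqr, mul_add, add_mul, mul_sub, sub_mul] <;> abel
  pp := by
    ext i j
    fin_cases i <;> fin_cases j <;>
      simp [Matrix.mul_apply, Fin.sum_univ_two, mul_assoc, x'r, y'r, xyr, yxr, A.xx, A.yy, A.xy,
        A.yx, yyq, yyqr, mul_add, add_mul, mul_sub, sub_mul] <;> abel
  pu := by
    ext i j
    fin_cases i <;> fin_cases j <;>
      simp [Matrix.mul_apply, Fin.sum_univ_two, mul_assoc, x'r, y'r, xyr, yxr, A.xx, A.yy, A.xy,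
        A.yx, yyq, yyqr, mul_add, add_mul, mul_sub, sub_mul] <;> abel
  qv := by
    ext i j
    fin_cases i <;> fin_cases j <;>
      simp [Matrix.mul_apply, Fin.sum_univ_two, mul_assoc, x'r, y'r, xyr, yxr, A.xx, A.yy, A.xy,
        A.yx, yyq, yyqr, mul_add, add_mul, mul_sub, sub_mul] <;> abel
  vq' := by
    ext i j
    fin_cases i <;> fin_cases j <;>
      simp [Matrix.mul_apply, Fin.sum_univ_two, mul_assoc, x'r, y'r, xyr, yxr, A.xx, A.yy, A.xy,
        A.yx, yyq, yyqr, mul_add, add_mul, mul_sub, sub_mul] <;> abel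
  qq := by
    ext i j
    fin_cases i <;> fin_cases j <;>
      simp [Matrix.mul_apply, Fin.sum_univ_two, mul_assoc, x'r, y'r, xyr, yxr, A.xx, A.yy, A.xy,
        A.yx, yyq, yyqr, mul_add, add_mul, mul_sub, sub_mul] <;> abel
  qw := by
    ext i j
    fin_cases i <;> fin_cases j <;>
      simp [Matrix.mul_apply, Fin.sum_univ_two, mul_assoc, x'r, y'r, xyr, yxr, A.xx, A.yy, A.xy,
        A.yx, yyq, yyqr, mul_add, add_mul, mul_sub, sub_mul] <;> abel

/-- the circulant matrix -/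
def circ (a b : R) : Matrix (Fin 2) (Fin 2) R := !![a, b; b, a]

lemma io_mat_x : (io (mat A)).x = circ A.x 0 := by
  ext i j
  fin_cases i <;> fin_cases j <;> simp [io, mat, circ]

lemma io_mat_x' : (io (mat A)).x' = circ A.x' 0 := by
  ext i j
  fin_cases i <;> fin_cases j <;> simp [io, mat, circ]

lemma io_mat_y : (io (mat A)).y = circ (A.y * A.x * A.x') (A.y * A.y * A.y') := by
  ext i j
  fin_cases i <;> fin_cases j <;>
    simp [io, ioY, mat, circ, Matrix.mul_apply, Fin.sum_univ_two, mul_assoc, x'r, y'r, xyr, yxr,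
      A.xx, A.yy, A.xy, A.yx, yyq, yyqr, mul_add, add_mul, mul_sub, sub_mul] <;> abel

lemma io_mat_y' : (io (mat A)).y' = circ (A.x * A.x' * A.y') (A.y * A.y' * A.y') := by
  ext i j
  fin_cases i <;> fin_cases j <;>
    simp [io, ioY', mat, circ, Matrix.mul_apply, Fin.sum_univ_two, mul_assoc, x'r, y'r, xyr, yxr,
      A.xx, A.yy, A.xy, A.yx, yyq, yyqr, mul_add, add_mul, mul_sub, sub_mul] <;> abel

end

end Pool.Agent.Helper7.LL
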