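import Mathlib
import Pool.Agent.Helper7.LL.Mat
import Pool.Agent.Helper7.LL.Gen
import Pool.Agent.Helper7.LL.Corr

set_option autoImplicit false
set_option linter.unusedSimpArgs false

/-!
# The involution of L_{2-} with fixed ring L_2, and the grading of L_2
-/

namespace Pool.Agent.Helper7.LL

open Pool.Agent.Helper92 Pool.Agent.Helper92.LV

universe u v

section map

variable {R S : Type*} [Ring R] [Ring S] (h : R →+* S)

lemma io_map (F : RF R) : io (mapRF h F) = mapLF h (io F) := by
  apply LF.ext <;> simp only [io, ioY, ioY', mapLF, mapRF, map_add, map_mul]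

lemma sig_map (F : RF R) : sig (mapRF h F) = mapRF h (sig F) := by
  apply RF.ext <;> simp only [sig, siT, siT', mapRF, map_add, map_mul]

end map

section top

variable {k : Type u} [Field k]

/-- the canonical L_2 family -/
noncomputable def canA (k : Type u) [Field k] : LF (LPA k E2) := homLF (AlgHom.id k _)

/-- the canonical L_{2-} family -/
noncomputable def canF (k : Type u) [Field k] : RF (LPA k E2m) := homRF (AlgHom.id k _)

lemma famOf_id {V E : Type} [Fintype V] [Fintype E] [DecidableEq V]
    [DecidableEq E] {G : LV.Graph V E} : famOf (AlgHom.id k (LPA k G)) = canon k G := rfl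

lemma top_L2 (S : Subalgebra k (LPA k E2)) (hx : (canA k).x ∈ S) (hx' : (canA k).x' ∈ S)
    (hy : (canA k).y ∈ S) (hy' : (canA k).y' ∈ S) (a : LPA k E2) : a ∈ S := by
  have h := canon_gens k E2
  rw [Fam.Gens] at h
  have h2 : Algebra.adjoin k (Set.range (canon k E2).v ∪ Set.range (canon k E2).e ∪
      Set.range (canon k E2).g) ≤ S := by
    rw [Algebra.adjoin_le_iff]
    rintro z ((⟨a, rfl⟩ | ⟨a, rfl⟩) | ⟨a, rfl⟩)
    · have h3 := (canon k E2).one
      simp only [Finset.univ_unique, Finset.sum_singleton] at h3
      have h4 : (canon k E2).v a = 1 := h3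
      rw [h4]; exact S.one_mem
    · fin_cases a
      · exact hx
      · exact hy
    · fin_cases a
      · exact hx'
      · exact hy'
  rw [h] at h2
  exact h2 Algebra.mem_top

lemma top_L2m (S : Subalgebra k (LPA k E2m)) (hv : (canF k).v ∈ S)
    (hx : (io (canF k)).x ∈ S) (hx' : (io (canF k)).x' ∈ S)
    (hy : (io (canF k)).y ∈ S) (hy' : (io (canF k)).y' ∈ S) (a : LPA k E2m) : a ∈ S := by
  have h := canon_gens k E2m
  rw [Fam.Gens] at h
  have hA := allMem_of (canF k) S.toSubring hv hx hx' hy hy'
  have hc : canon k E2m = ofRF (canF k) := (famRF.left_inv (canon k E2m)).symm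
  have h2 : Algebra.adjoin k (Set.range (canon k E2m).v ∪ Set.range (canon k E2m).e ∪
      Set.range (canon k E2m).g) ≤ S := by
    rw [Algebra.adjoin_le_iff, hc]
    rintro z ((⟨a, rfl⟩ | ⟨a, rfl⟩) | ⟨a, rfl⟩)
    · rcases a with a | a
      · exact hA.v
      · fin_cases a
        · exact hA.u
        · exact hA.w
    · rcases a with a | a
      · fin_cases a
        · exact hA.f
        · exact hA.d
      · fin_cases a
        · exact S.mul_mem hA.p hA.u
        · exact S.mul_mem hA.q hA.w
        · exact S.mul_mem hA.G hA.p'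
        · exact S.mul_mem hA.p hA.v
        · exact S.mul_mem hA.p hA.w
        · exact S.mul_mem hA.q hA.u
    · rcases a with a | a
      · fin_cases a
        · exact hA.f'
        · exact hA.d'
      · fin_cases a
        · exact S.mul_mem hA.u hA.p'
        · exact S.mul_mem hA.w hA.q'
        · exact S.mul_mem hA.p hA.G'
        · exact S.mul_mem hA.v hA.p'
        · exact S.mul_mem hA.w hA.p'
        · exact S.mul_mem hA.u hA.q'
  rw [h] at h2
  exact h2 Algebra.mem_top

end top

section main

variable (k : Type u) [Field k]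

/-- `ι : L_2 → L_{2-}` -/
noncomputable def iota : LPA k E2 →ₐ[k] LPA k E2m := homLF.symm (io (canF k))

/-- `σ : L_{2-} → L_{2-}` -/
noncomputable def sigma : LPA k E2m →ₐ[k] LPA k E2m := homRF.symm (sig (canF k))

/-- `π : L_{2-} → M_2(L_2)` -/
noncomputable def ppi : LPA k E2m →ₐ[k] Matrix (Fin 2) (Fin 2) (LPA k E2) :=
  homRF.symm (mat (canA k))

lemma map_iota : mapLF (iota k : LPA k E2 →+* LPA k E2m) (canA k) = io (canF k) := by
  rw [canA, ← homLF_comp]
  exact homLF.apply_symm_apply _

lemma map_sigma : mapRF (sigma k : LPA k E2m →+* LPA k E2m) (canF k) = sig (canF k) := by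
  rw [canF, ← homRF_comp]
  exact homRF.apply_symm_apply _

lemma map_ppi : mapRF (ppi k : LPA k E2m →+* Matrix (Fin 2) (Fin 2) (LPA k E2)) (canF k) =
    mat (canA k) := by
  rw [canF, ← homRF_comp]
  exact homRF.apply_symm_apply _

lemma sigma_sigma : (sigma k).comp (sigma k) = AlgHom.id k _ := by
  apply homRF.injective
  rw [homRF_comp, sigma, Equiv.apply_symm_apply, ← sigma, ← sig_map, map_sigma, sig_sig]
  rfl

lemma sigma_iota : (sigma k).comp (iota k) = iota k := by
  apply homLF.injective
  rw [homLF_comp, iota, Equiv.apply_symm_apply, ← io_map, map_sigma, io_sig]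

end main

end Pool.Agent.Helper7.LL
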