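import Mathlib
import Pool.Agent.Helper7.LL.Fix

set_option autoImplicit false
set_option linter.unusedSimpArgs false

/-!
# The decomposition, injectivity, the grading
-/

namespace Pool.Agent.Helper7.LL

open Pool.Agent.Helper92 Pool.Agent.Helper92.LV

universe u v

section circ

variable {R : Type*} [Ring R]

lemma circ_mul (a b c d : R) : circ a b * circ c d = circ (a * c + b * d) (a * d + b * c) := by
  ext i j
  fin_cases i <;> fin_cases j <;> simp [circ, Matrix.mul_apply, Fin.sum_univ_two] <;> abel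

lemma circ_add (a b c d : R) : circ a b + circ c d = circ (a + c) (b + d) := by
  ext i j
  fin_cases i <;> fin_cases j <;> simp [circ]

end circ

section main

variable (k : Type u) [Field k]

/-- elements whose image in the matrices is circulant -/
noncomputable def cirAlg : Subalgebra k (LPA k E2) where
  carrier := {a | ∃ b c, ppi k (iota k a) = circ b c ∧ b + c = a}
  mul_mem' := by
    rintro a a' ⟨b, c, h1, h2⟩ ⟨b', c', h1', h2'⟩
    refine ⟨b * b' + c * c', b * c' + c * b', ?_, ?_⟩
    · rw [map_mul, map_mul, h1, h1', circ_mul]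
    · rw [← h2, ← h2']; noncomm_ring
  add_mem' := by
    rintro a a' ⟨b, c, h1, h2⟩ ⟨b', c', h1', h2'⟩
    refine ⟨b + b', c + c', ?_, ?_⟩
    · rw [map_add, map_add, h1, h1', circ_add]
    · rw [← h2, ← h2']; abel
  algebraMap_mem' := by
    intro r
    refine ⟨algebraMap k _ r, 0, ?_, ?_⟩
    · rw [AlgHom.commutes, AlgHom.commutes]
      ext i j
      fin_cases i <;> fin_cases j <;> simp [circ, Matrix.algebraMap_matrix_apply]
    · rw [add_zero]

lemma iota_x : iota k (canA k).x = (io (canF k)).x := congrArg LF.x (map_iota k)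
lemma iota_x' : iota k (canA k).x' = (io (canF k)).x' := congrArg LF.x' (map_iota k)
lemma iota_y : iota k (canA k).y = (io (canF k)).y := congrArg LF.y (map_iota k)
lemma iota_y' : iota k (canA k).y' = (io (canF k)).y' := congrArg LF.y' (map_iota k)

lemma map_ppi_iota : mapLF (ppi k : LPA k E2m →+* Matrix (Fin 2) (Fin 2) (LPA k E2))
    (io (canF k)) = io (mat (canA k)) := by
  rw [← io_map, map_ppi]

lemma mem_cirAlg (a : LPA k E2) : a ∈ cirAlg k := by
  have hs := (canA k).sum
  apply top_L2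
  · refine ⟨(canA k).x, 0, ?_, add_zero _⟩
    rw [iota_x]
    exact (congrArg LF.x (map_ppi_iota k)).trans (io_mat_x _)
  · refine ⟨(canA k).x', 0, ?_, add_zero _⟩
    rw [iota_x']
    exact (congrArg LF.x' (map_ppi_iota k)).trans (io_mat_x' _)
  · refine ⟨(canA k).y * (canA k).x * (canA k).x', (canA k).y * (canA k).y * (canA k).y',
      ?_, ?_⟩
    · rw [iota_y]
      exact (congrArg LF.y (map_ppi_iota k)).trans (io_mat_y _)
    · rw [mul_assoc, mul_assoc, ← mul_add, hs, mul_one]
  · refine ⟨(canA k).x * (canA k).x' * (canA k).y', (canA k).y * (canA k).y' * (canA k).y',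
      ?_, ?_⟩
    · rw [iota_y']
      exact (congrArg LF.y' (map_ppi_iota k)).trans (io_mat_y' _)
    · rw [← add_mul, hs, one_mul]

theorem iota_inj : Function.Injective (iota k) := by
  rw [injective_iff_map_eq_zero]
  intro a ha
  obtain ⟨b, c, h1, h2⟩ := mem_cirAlg k a
  rw [ha, map_zero] at h1
  have e1 : (0 : LPA k E2) = b := congrArg (fun M => M 0 0) h1
  have e2 : (0 : LPA k E2) = c := congrArg (fun M => M 0 1) h1
  rw [← h2, ← e1, ← e2, add_zero]

/-- degree 0 -/
noncomputable def A0 : Subalgebra k (LPA k E2) where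
  carrier := {a | (canF k).v * iota k a = iota k a * (canF k).v}
  mul_mem' := by
    intro a b ha hb
    simp only [Set.mem_ofPred_eq] at ha hb ⊢
    rw [map_mul, ← mul_assoc, ha, mul_assoc, hb, mul_assoc]
  add_mem' := by
    intro a b ha hb
    simp only [Set.mem_ofPred_eq] at ha hb ⊢
    rw [map_add, mul_add, add_mul, ha, hb]
  algebraMap_mem' := by
    intro r
    simp only [Set.mem_ofPred_eq]
    rw [AlgHom.commutes]
    exact (Algebra.commutes r _).symm

/-- degree 1 -/
noncomputable def A1 : Submodule k (LPA k E2) where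
  carrier := {a | (canF k).v * iota k a = iota k a * (1 - (canF k).v)}
  add_mem' := by
    intro a b ha hb
    simp only [Set.mem_ofPred_eq] at ha hb ⊢
    rw [map_add, mul_add, add_mul, ha, hb]
  zero_mem' := by
    simp only [Set.mem_ofPred_eq]
    rw [map_zero, mul_zero, zero_mul]
  smul_mem' := by
    intro c a ha
    simp only [Set.mem_ofPred_eq] at ha ⊢
    rw [map_smul, mul_smul_comm, ha, smul_mul_assoc]

lemma mem_A0 {a : LPA k E2} : a ∈ A0 k ↔ (canF k).v * iota k a = iota k a * (canF k).v := Iff.rfl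
lemma mem_A1 {a : LPA k E2} :
    a ∈ A1 k ↔ (canF k).v * iota k a = iota k a * (1 - (canF k).v) := Iff.rfl

lemma A01 {a b : LPA k E2} (ha : a ∈ A0 k) (hb : b ∈ A1 k) : a * b ∈ A1 k := by
  rw [mem_A0] at ha
  rw [mem_A1] at hb ⊢
  rw [map_mul, ← mul_assoc, ha, mul_assoc, hb, mul_assoc]

lemma A10 {a b : LPA k E2} (ha : a ∈ A1 k) (hb : b ∈ A0 k) : a * b ∈ A1 k := by
  rw [mem_A1] at ha ⊢
  rw [mem_A0] at hb
  rw [map_mul, ← mul_assoc, ha, mul_assoc, mul_assoc, sub_mul, one_mul, hb]
  congr 1
  rw [mul_sub, mul_one]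

lemma A11 {a b : LPA k E2} (ha : a ∈ A1 k) (hb : b ∈ A1 k) : a * b ∈ A0 k := by
  rw [mem_A1] at ha hb
  rw [mem_A0]
  rw [map_mul, ← mul_assoc, ha, mul_assoc, mul_assoc, sub_mul, one_mul, hb]
  congr 1
  rw [mul_sub, mul_one, sub_sub_cancel]

lemma x_A0 : (canA k).x ∈ A0 k := by rw [mem_A0, iota_x]; exact x_comm _
lemma x'_A0 : (canA k).x' ∈ A0 k := by rw [mem_A0, iota_x']; exact x'_comm _
lemma y0_A0 : (canA k).y * (canA k).x * (canA k).x' ∈ A0 k := by
  rw [mem_A0, map_mul, map_mul, iota_x, iota_x', iota_y]; exact y0_comm _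
lemma y0'_A0 : (canA k).x * (canA k).x' * (canA k).y' ∈ A0 k := by
  rw [mem_A0, map_mul, map_mul, iota_x, iota_x', iota_y']; exact y0'_comm _
lemma y1_A1 : (canA k).y * (canA k).y * (canA k).y' ∈ A1 k := by
  rw [mem_A1, map_mul, map_mul, iota_y, iota_y']; exact y1_comm _
lemma y1'_A1 : (canA k).y * (canA k).y' * (canA k).y' ∈ A1 k := by
  rw [mem_A1, map_mul, map_mul, iota_y, iota_y']; exact y1'_comm _

/-- the family of `θ` -/
noncomputable def thA : LF (LPA k E2) where
  x := (canA k).x
  x' := (canA k).x'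
  y := (canA k).y * ((canA k).x * (canA k).x' - (canA k).y * (canA k).y')
  y' := ((canA k).x * (canA k).x' - (canA k).y * (canA k).y') * (canA k).y'
  xx := (canA k).xx
  yy := by
    simp [mul_sub, sub_mul, mul_assoc, x'r, y'r, xyr, yxr, (canA k).xx, (canA k).yy,
      (canA k).xy, (canA k).yx, yyq, yyqr]
  xy := by
    rw [← mul_assoc, (canA k).xy, zero_mul]
  yx := by
    rw [mul_assoc, (canA k).yx, mul_zero]
  sum := by
    simp [mul_sub, sub_mul, mul_assoc, x'r, y'r, xyr, yxr, (canA k).xx, (canA k).yy,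
      (canA k).xy, (canA k).yx, yyq, yyqr]

/-- `θ` -/
noncomputable def theta : LPA k E2 →ₐ[k] LPA k E2 := homLF.symm (thA k)

lemma map_theta : mapLF (theta k : LPA k E2 →+* LPA k E2) (canA k) = thA k := by
  rw [canA, ← homLF_comp]
  exact homLF.apply_symm_apply _

lemma theta_x : theta k (canA k).x = (canA k).x := congrArg LF.x (map_theta k)
lemma theta_x' : theta k (canA k).x' = (canA k).x' := congrArg LF.x' (map_theta k)
lemma theta_y : theta k (canA k).y =
    (canA k).y * ((canA k).x * (canA k).x' - (canA k).y * (canA k).y') :=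
  congrArg LF.y (map_theta k)
lemma theta_y' : theta k (canA k).y' =
    ((canA k).x * (canA k).x' - (canA k).y * (canA k).y') * (canA k).y' :=
  congrArg LF.y' (map_theta k)

/-- elements with a decomposition compatible with `θ` -/
noncomputable def decAlg : Subalgebra k (LPA k E2) where
  carrier := {a | ∃ b ∈ A0 k, ∃ c ∈ A1 k, a = b + c ∧ theta k a = b - c}
  mul_mem' := by
    rintro a a' ⟨b, hb, c, hc, h1, h2⟩ ⟨b', hb', c', hc', h1', h2'⟩
    refine ⟨b * b' + c * c', (A0 k).add_mem ((A0 k).mul_mem hb hb') (A11 k hc hc'),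
      b * c' + c * b', (A1 k).add_mem (A01 k hb hc') (A10 k hc hb'), ?_, ?_⟩
    · rw [h1, h1']; noncomm_ring
    · rw [map_mul, h2, h2']
      simp only [sub_mul, mul_sub]
      abel
  add_mem' := by
    rintro a a' ⟨b, hb, c, hc, h1, h2⟩ ⟨b', hb', c', hc', h1', h2'⟩
    refine ⟨b + b', (A0 k).add_mem hb hb', c + c', (A1 k).add_mem hc hc', ?_, ?_⟩
    · rw [h1, h1']; abel
    · rw [map_add, h2, h2']; abel
  algebraMap_mem' := by
    intro r
    refine ⟨_, (A0 k).algebraMap_mem r, 0, (A1 k).zero_mem, (add_zero _).symm, ?_⟩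
    rw [AlgHom.commutes, sub_zero]

lemma mem_decAlg (a : LPA k E2) : a ∈ decAlg k := by
  have hs := (canA k).sum
  apply top_L2
  · exact ⟨_, x_A0 k, 0, (A1 k).zero_mem, (add_zero _).symm, by rw [theta_x, sub_zero]⟩
  · exact ⟨_, x'_A0 k, 0, (A1 k).zero_mem, (add_zero _).symm, by rw [theta_x', sub_zero]⟩
  · refine ⟨_, y0_A0 k, _, y1_A1 k, ?_, ?_⟩
    · rw [mul_assoc, mul_assoc, ← mul_add, hs, mul_one]
    · rw [theta_y, mul_sub, mul_assoc, mul_assoc]
  · refine ⟨_, y0'_A0 k, _, y1'_A1 k, ?_, ?_⟩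
    · rw [← add_mul, hs, one_mul]
    · rw [theta_y', sub_mul]

/-- elements `ι(a) v + ι(b) (1 - v)` -/
noncomputable def vAlg : Subalgebra k (LPA k E2m) where
  carrier := {z | ∃ a b, z = iota k a * (canF k).v + iota k b * (1 - (canF k).v)}
  mul_mem' := by
    rintro z z' ⟨a, b, h⟩ ⟨c, d, h'⟩
    obtain ⟨c0, hc0, c1, hc1, hc, -⟩ := mem_decAlg k c
    obtain ⟨d0, hd0, d1, hd1, hd, -⟩ := mem_decAlg k d
    rw [mem_A0] at hc0 hd0
    rw [mem_A1] at hc1 hd1
    have hv := (canF k).vv
    refine ⟨a * c0 + b * c1, a * d1 + b * d0, ?_⟩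
    rw [h, h', hc, hd]
    simp only [map_add, map_mul]
    generalize iota k a = a at *
    generalize iota k b = b at *
    generalize iota k c0 = c0 at *
    generalize iota k c1 = c1 at *
    generalize iota k d0 = d0 at *
    generalize iota k d1 = d1 at *
    generalize (canF k).v = v at *
    have e1 : v * c0 = c0 * v := hc0
    have e2 : v * c1 = c1 - c1 * v := by rw [hc1, mul_sub, mul_one]
    have e3 : v * d0 = d0 * v := hd0
    have e4 : v * d1 = d1 - d1 * v := by rw [hd1, mul_sub, mul_one]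
    have e1r : ∀ z, v * (c0 * z) = c0 * (v * z) := fun z => by
      rw [← mul_assoc, e1, mul_assoc]
    have e2r : ∀ z, v * (c1 * z) = c1 * z - c1 * (v * z) := fun z => by
      rw [← mul_assoc, e2, sub_mul, mul_assoc]
    have e3r : ∀ z, v * (d0 * z) = d0 * (v * z) := fun z => by
      rw [← mul_assoc, e3, mul_assoc]
    have e4r : ∀ z, v * (d1 * z) = d1 * z - d1 * (v * z) := fun z => by
      rw [← mul_assoc, e4, sub_mul, mul_assoc]
    simp only [add_mul, mul_add, sub_mul, mul_sub, mul_assoc, mul_one, one_mul, e1, e2, e3, e4,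
      e1r, e2r, e3r, e4r, hv]
    abel
  add_mem' := by
    rintro z z' ⟨a, b, h⟩ ⟨c, d, h'⟩
    refine ⟨a + c, b + d, ?_⟩
    rw [h, h', map_add, map_add]
    noncomm_ring
  algebraMap_mem' := by
    intro r
    refine ⟨algebraMap k _ r, algebraMap k _ r, ?_⟩
    rw [AlgHom.commutes, ← mul_add]
    simp

lemma iota_vAlg (a : LPA k E2) : iota k a ∈ vAlg k := ⟨a, a, by rw [← mul_add]; simp⟩

lemma mem_vAlg (z : LPA k E2m) : z ∈ vAlg k := by
  apply top_L2m
  · exact ⟨1, 0, by simp⟩
  · rw [← iota_x]; exact iota_vAlg k _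
  · rw [← iota_x']; exact iota_vAlg k _
  · rw [← iota_y]; exact iota_vAlg k _
  · rw [← iota_y']; exact iota_vAlg k _

lemma sigma_v : sigma k (canF k).v = 1 - (canF k).v := by
  have h : sigma k (canF k).v = (canF k).u + (canF k).w := congrArg RF.v (map_sigma k)
  rw [h, ← (canF k).one]; abel

lemma sigma_iota_apply (a : LPA k E2) : sigma k (iota k a) = iota k a :=
  congrArg (fun t : LPA k E2 →ₐ[k] LPA k E2m => t a) (sigma_iota k)

lemma sigma_sigma_apply (z : LPA k E2m) : sigma k (sigma k z) = z :=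
  congrArg (fun t : LPA k E2m →ₐ[k] LPA k E2m => t z) (sigma_sigma k)

theorem sigma_fixed (z : LPA k E2m) : sigma k z = z ↔ ∃ a, iota k a = z := by
  constructor
  · intro h
    obtain ⟨a, b, hz⟩ := mem_vAlg k z
    have hv := (canF k).vv
    have h1 : sigma k z = iota k a * (1 - (canF k).v) + iota k b * (canF k).v := by
      rw [hz, map_add, map_mul, map_mul, map_sub, map_one, sigma_v, sigma_iota_apply,
        sigma_iota_apply, sub_sub_cancel]
    rw [h, hz] at h1
    refine ⟨a, ?_⟩
    have h2 := congrArg (· * (1 - (canF k).v)) h1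
    simp only [add_mul, mul_assoc, mul_sub, sub_mul, mul_one, one_mul, hv, sub_self, mul_zero,
      sub_zero, zero_add, add_zero] at h2
    have h3 : iota k b - iota k b * (canF k).v = iota k a - iota k a * (canF k).v := by
      have e1 : iota k a * (canF k).v + (iota k b - iota k b * (canF k).v) -
        iota k a * (canF k).v = iota k b - iota k b * (canF k).v := by abel
      have e2 : iota k a - iota k a * (canF k).v + iota k b * (canF k).v -
        iota k b * (canF k).v = iota k a - iota k a * (canF k).v := by abel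
      rw [← e1, h2, e2]
    rw [hz, mul_sub, mul_one, h3]
    abel
  · rintro ⟨a, rfl⟩
    exact sigma_iota_apply k a

lemma iota_v_inj {a : LPA k E2} (h : iota k a * (canF k).v = 0) : a = 0 := by
  apply iota_inj k
  have h1 := congrArg (sigma k) h
  rw [map_mul, sigma_v, sigma_iota_apply, map_zero, mul_sub, h, mul_one, sub_zero] at h1
  rw [h1, map_zero]

lemma disj {a : LPA k E2} (h0 : a ∈ A0 k) (h1 : a ∈ A1 k) : a = 0 := by
  rw [mem_A0] at h0
  rw [mem_A1] at h1
  apply iota_v_inj
  have h2 := congrArg (· * (canF k).v) (h0.symm.trans h1)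
  simp only [mul_assoc, sub_mul, one_mul, (canF k).vv, sub_self, mul_zero] at h2
  exact h2

theorem theta_A0 {a : LPA k E2} (h : a ∈ A0 k) : theta k a = a := by
  obtain ⟨b, hb, c, hc, h1, h2⟩ := mem_decAlg k a
  have h3 : c = 0 := by
    apply disj k _ hc
    have h4 : c = a - b := by rw [h1]; abel
    rw [h4]
    exact (A0 k).sub_mem h hb
  rw [h2, h1, h3, add_zero, sub_zero]

theorem theta_A1 {a : LPA k E2} (h : a ∈ A1 k) : theta k a = - a := by
  obtain ⟨b, hb, c, hc, h1, h2⟩ := mem_decAlg k a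
  have h3 : b = 0 := by
    apply disj k hb
    have h4 : b = a - c := by rw [h1]; abel
    rw [h4]
    exact (A1 k).sub_mem h hc
  rw [h2, h1, h3, zero_add, zero_sub]

theorem theta_theta (a : LPA k E2) : theta k (theta k a) = a := by
  obtain ⟨b, hb, c, hc, h1, h2⟩ := mem_decAlg k a
  rw [h2, map_sub, theta_A0 k hb, theta_A1 k hc, h1]; abel

theorem theta_fixed (h2 : (2 : k) ≠ 0) (a : LPA k E2) : theta k a = a ↔ a ∈ A0 k := by
  constructor
  · intro h
    obtain ⟨b, hb, c, hc, h3, h4⟩ := mem_decAlg k a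
    rw [h, h3] at h4
    have h5 : (2 : k) • c = 0 := by
      rw [two_smul]
      have this : b + c - b + c = b - c - b + c := by rw [h4]
      rw [show b + c - b + c = c + c by abel, show b - c - b + c = 0 by abel] at this
      exact this
    have h6 : c = 0 := (smul_eq_zero.mp h5).resolve_left h2
    rw [h3, h6, add_zero]
    exact hb
  · exact theta_A0 k

theorem isCompl_A : IsCompl (Subalgebra.toSubmodule (A0 k)) (A1 k) := by
  constructor
  · rw [Submodule.disjoint_def]
    intro a h0 h1
    exact disj k h0 h1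
  · rw [codisjoint_iff, eq_top_iff]
    intro a _
    obtain ⟨b, hb, c, hc, h1, -⟩ := mem_decAlg k a
    rw [h1]
    exact Submodule.add_mem_sup hb hc

end main

end Pool.Agent.Helper7.LL
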