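import Mathlib
import Pool.Agent.Helper7.LL.Fix2

set_option autoImplicit false
set_option linter.unusedSimpArgs false

/-!
# `A_0 ≅ L_{2-}`, skew group rings, non-triviality
-/

namespace Pool.Agent.Helper7.LL

open Pool.Agent.Helper92 Pool.Agent.Helper92.LV

universe u v

section circ

variable {R : Type*} [Ring R]

lemma one_sub_E11 : (1 : Matrix (Fin 2) (Fin 2) R) - !![1, 0; 0, 0] = !![0, 0; 0, 1] := by
  ext i j
  fin_cases i <;> fin_cases j <;> simp

lemma circ_E11 (a b : R) : circ a b * !![1, 0; 0, 0] = !![a, 0; b, 0] := by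
  ext i j
  fin_cases i <;> fin_cases j <;> simp [circ, Matrix.mul_apply, Fin.sum_univ_two]

/-- the flipM -/
def flipM : Matrix (Fin 2) (Fin 2) R := !![0, 1; 1, 0]

lemma flipM_flipM : (flipM : Matrix (Fin 2) (Fin 2) R) * flipM = 1 := by
  ext i j
  fin_cases i <;> fin_cases j <;> simp [flipM, Matrix.mul_apply, Fin.sum_univ_two]

lemma flipM_conj (a b c d : R) : flipM * !![a, b; c, d] * flipM = !![d, c; b, a] := by
  ext i j
  fin_cases i <;> fin_cases j <;> simp [flipM, Matrix.mul_apply, Fin.sum_univ_two]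

lemma mul_flipM (a b c d : R) : !![a, b; c, d] * flipM = !![b, a; d, c] := by
  ext i j
  fin_cases i <;> fin_cases j <;> simp [flipM, Matrix.mul_apply, Fin.sum_univ_two]

variable {k : Type*} [Field k] [Algebra k R]

/-- `M_2(R) ≅ R` for a ring with an L_2 family -/
def matIso (A : LF R) : Matrix (Fin 2) (Fin 2) R ≃ₐ[k] R :=
  AlgEquiv.ofAlgHom
    ({ toFun := fun M => A.x * M 0 0 * A.x' + A.x * M 0 1 * A.y' + A.y * M 1 0 * A.x' +
        A.y * M 1 1 * A.y'
       map_one' := by simpa using A.sum
       map_mul' := fun M N => by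
        simp only [Matrix.mul_apply, Fin.sum_univ_two, add_mul, mul_add, mul_assoc, x'r, y'r,
          xyr, yxr, mul_zero, add_zero, zero_add]
        abel
       map_zero' := by simp
       map_add' := fun M N => by
        simp only [Matrix.add_apply]
        noncomm_ring
       commutes' := fun r => by
        simp only [Matrix.algebraMap_matrix_apply]
        rw [if_pos trivial, if_neg (by decide), if_neg (by decide)]
        rw [mul_zero, zero_mul, mul_zero, zero_mul, add_zero, add_zero,
          ← Algebra.commutes r A.x, ← Algebra.commutes r A.y, mul_assoc, mul_assoc, ← mul_add,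
          A.sum, mul_one] } : Matrix (Fin 2) (Fin 2) R →ₐ[k] R)
    ({ toFun := fun a => !![A.x' * a * A.x, A.x' * a * A.y; A.y' * a * A.x, A.y' * a * A.y]
       map_one' := by
        ext i j
        fin_cases i <;> fin_cases j <;> simp [A.xx, A.yy, A.xy, A.yx]
       map_mul' := fun a b => by
        have h := A.sum
        have key : ∀ c e z z' : R, c * (a * b) * e = c * a * A.x * (A.x' * b * e) +
            c * a * A.y * (A.y' * b * e) := by
          intro c e _ _
          have : c * a * A.x * (A.x' * b * e) + c * a * A.y * (A.y' * b * e) =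
            c * a * (A.x * A.x' + A.y * A.y') * b * e := by noncomm_ring
          rw [this, h, mul_one]
          noncomm_ring
        ext i j
        fin_cases i <;> fin_cases j <;>
          simp only [Matrix.mul_apply, Fin.sum_univ_two] <;> exact key _ _ 0 0
       map_zero' := by
        ext i j
        fin_cases i <;> fin_cases j <;> simp
       map_add' := fun a b => by
        ext i j
        fin_cases i <;> fin_cases j <;> simp [mul_add, add_mul]
       commutes' := fun r => by
        have e1 : ∀ c e : R, c * algebraMap k R r * e = algebraMap k R r * (c * e) := by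
          intro c e
          rw [← Algebra.commutes r c, mul_assoc]
        ext i j
        fin_cases i <;> fin_cases j <;>
          simp [e1, A.xx, A.yy, A.xy, A.yx, Matrix.algebraMap_matrix_apply] } :
      R →ₐ[k] Matrix (Fin 2) (Fin 2) R)
    (by
      ext a
      change A.x * (A.x' * a * A.x) * A.x' + A.x * (A.x' * a * A.y) * A.y' +
        A.y * (A.y' * a * A.x) * A.x' + A.y * (A.y' * a * A.y) * A.y' = a
      have : A.x * (A.x' * a * A.x) * A.x' + A.x * (A.x' * a * A.y) * A.y' +
        A.y * (A.y' * a * A.x) * A.x' + A.y * (A.y' * a * A.y) * A.y' =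
        (A.x * A.x' + A.y * A.y') * a * (A.x * A.x' + A.y * A.y') := by noncomm_ring
      rw [this, A.sum, one_mul, mul_one])
    (by
      apply AlgHom.ext
      intro M
      change !![A.x' * (A.x * M 0 0 * A.x' + A.x * M 0 1 * A.y' + A.y * M 1 0 * A.x' +
        A.y * M 1 1 * A.y') * A.x, A.x' * (A.x * M 0 0 * A.x' + A.x * M 0 1 * A.y' +
        A.y * M 1 0 * A.x' + A.y * M 1 1 * A.y') * A.y; A.y' * (A.x * M 0 0 * A.x' +
        A.x * M 0 1 * A.y' + A.y * M 1 0 * A.x' + A.y * M 1 1 * A.y') * A.x,
        A.y' * (A.x * M 0 0 * A.x' + A.x * M 0 1 * A.y' + A.y * M 1 0 * A.x' +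
        A.y * M 1 1 * A.y') * A.y] = M
      ext i j
      fin_cases i <;> fin_cases j <;>
        simp [mul_add, add_mul, mul_assoc, x'r, y'r, xyr, yxr, A.xx, A.yy, A.xy, A.yx])

end circ

section main

variable (k : Type u) [Field k]

/-- decomposition together with the matrix -/
noncomputable def decAlg' : Subalgebra k (LPA k E2) where
  carrier := {a | ∃ b ∈ A0 k, ∃ c ∈ A1 k, a = b + c ∧ ppi k (iota k a) = circ b c}
  mul_mem' := by
    rintro a a' ⟨b, hb, c, hc, h1, h2⟩ ⟨b', hb', c', hc', h1', h2'⟩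
    refine ⟨b * b' + c * c', (A0 k).add_mem ((A0 k).mul_mem hb hb') (A11 k hc hc'),
      b * c' + c * b', (A1 k).add_mem (A01 k hb hc') (A10 k hc hb'), ?_, ?_⟩
    · rw [h1, h1']; noncomm_ring
    · rw [map_mul, map_mul, h2, h2', circ_mul]
  add_mem' := by
    rintro a a' ⟨b, hb, c, hc, h1, h2⟩ ⟨b', hb', c', hc', h1', h2'⟩
    refine ⟨b + b', (A0 k).add_mem hb hb', c + c', (A1 k).add_mem hc hc', ?_, ?_⟩
    · rw [h1, h1']; abel
    · rw [map_add, map_add, h2, h2', circ_add]
  algebraMap_mem' := by
    intro r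
    refine ⟨_, (A0 k).algebraMap_mem r, 0, (A1 k).zero_mem, (add_zero _).symm, ?_⟩
    rw [AlgHom.commutes, AlgHom.commutes]
    ext i j
    fin_cases i <;> fin_cases j <;> simp [circ, Matrix.algebraMap_matrix_apply]

lemma mem_decAlg' (a : LPA k E2) : a ∈ decAlg' k := by
  have hs := (canA k).sum
  apply top_L2
  · refine ⟨_, x_A0 k, 0, (A1 k).zero_mem, (add_zero _).symm, ?_⟩
    rw [iota_x]
    exact (congrArg LF.x (map_ppi_iota k)).trans (io_mat_x _)
  · refine ⟨_, x'_A0 k, 0, (A1 k).zero_mem, (add_zero _).symm, ?_⟩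
    rw [iota_x']
    exact (congrArg LF.x' (map_ppi_iota k)).trans (io_mat_x' _)
  · refine ⟨_, y0_A0 k, _, y1_A1 k, ?_, ?_⟩
    · rw [mul_assoc, mul_assoc, ← mul_add, hs, mul_one]
    · rw [iota_y]
      exact (congrArg LF.y (map_ppi_iota k)).trans (io_mat_y _)
  · refine ⟨_, y0'_A0 k, _, y1'_A1 k, ?_, ?_⟩
    · rw [← add_mul, hs, one_mul]
    · rw [iota_y']
      exact (congrArg LF.y' (map_ppi_iota k)).trans (io_mat_y' _)

lemma ppi_A0 {a : LPA k E2} (h : a ∈ A0 k) : ppi k (iota k a) = circ a 0 := by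
  obtain ⟨b, hb, c, hc, h1, h2⟩ := mem_decAlg' k a
  have h3 : c = 0 := by
    apply disj k _ hc
    have h4 : c = a - b := by rw [h1]; abel
    rw [h4]
    exact (A0 k).sub_mem h hb
  rw [h2, h1, h3, add_zero]

lemma ppi_A1 {a : LPA k E2} (h : a ∈ A1 k) : ppi k (iota k a) = circ 0 a := by
  obtain ⟨b, hb, c, hc, h1, h2⟩ := mem_decAlg' k a
  have h3 : b = 0 := by
    apply disj k hb
    have h4 : b = a - c := by rw [h1]; abel
    rw [h4]
    exact (A1 k).sub_mem h hc
  rw [h2, h1, h3, zero_add]

lemma ppi_v : ppi k (canF k).v = !![1, 0; 0, 0] := congrArg RF.v (map_ppi k)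

lemma ppi_z {a b c d : LPA k E2} (ha : a ∈ A0 k) (hb : b ∈ A1 k) (hc : c ∈ A0 k)
    (hd : d ∈ A1 k) :
    ppi k (iota k (a + b) * (canF k).v + iota k (c + d) * (1 - (canF k).v)) =
      !![a, d; b, c] := by
  rw [map_add (ppi k), map_mul, map_mul, map_sub, map_one, ppi_v, map_add, map_add, map_add,
    map_add, ppi_A0 k ha, ppi_A1 k hb, ppi_A0 k hc, ppi_A1 k hd, circ_add, circ_add, one_sub_E11]
  ext i j
  fin_cases i <;> fin_cases j <;> simp [circ, Matrix.mul_apply, Fin.sum_univ_two]

lemma flipM_ppi (z : LPA k E2m) : flipM * ppi k z * flipM = ppi k (sigma k z) := by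
  obtain ⟨a, b, hz⟩ := mem_vAlg k z
  obtain ⟨a0, ha0, a1, ha1, ha, -⟩ := mem_decAlg' k a
  obtain ⟨b0, hb0, b1, hb1, hb, -⟩ := mem_decAlg' k b
  have h1 : sigma k z = iota k (b0 + b1) * (canF k).v + iota k (a0 + a1) * (1 - (canF k).v) := by
    rw [hz, map_add (sigma k), map_mul, map_mul, map_sub, map_one, sigma_v, sigma_iota_apply,
      sigma_iota_apply, sub_sub_cancel, ha, hb, add_comm]
  rw [h1, ppi_z k hb0 hb1 ha0 ha1, hz, ha, hb, ppi_z k ha0 ha1 hb0 hb1, flipM_conj]

lemma ppi_bij : Function.Bijective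
    (fun z : LPA k E2m × LPA k E2m => ppi k z.1 + ppi k z.2 * flipM) := by
  constructor
  · have key : ∀ z : LPA k E2m × LPA k E2m, ppi k z.1 + ppi k z.2 * flipM = 0 → z = 0 := by
      rintro ⟨z, z'⟩ h
      simp only at h
      obtain ⟨a, b, hz⟩ := mem_vAlg k z
      obtain ⟨a0, ha0, a1, ha1, ha, -⟩ := mem_decAlg' k a
      obtain ⟨b0, hb0, b1, hb1, hb, -⟩ := mem_decAlg' k b
      obtain ⟨c, d, hz'⟩ := mem_vAlg k z'
      obtain ⟨c0, hc0, c1, hc1, hc, -⟩ := mem_decAlg' k c
      obtain ⟨d0, hd0, d1, hd1, hd, -⟩ := mem_decAlg' k d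
      rw [hz, hz', ha, hb, hc, hd, ppi_z k ha0 ha1 hb0 hb1, ppi_z k hc0 hc1 hd0 hd1,
        mul_flipM] at h
      have zero : ∀ s t : LPA k E2, s ∈ A0 k → t ∈ A1 k → s + t = 0 → s = 0 ∧ t = 0 := by
        intro s t hs ht hst
        have e : s = - t := eq_neg_of_add_eq_zero_left hst
        have e2 : s = 0 := disj k hs (by rw [e]; exact (A1 k).neg_mem ht)
        refine ⟨e2, ?_⟩
        rw [e2, zero_add] at hst
        exact hst
      have q1 : a0 + d1 = 0 := congrArg (fun M => M 0 0) h
      have q2 : b1 + c0 = 0 := congrArg (fun M => M 0 1) h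
      have q3 : a1 + d0 = 0 := congrArg (fun M => M 1 0) h
      have q4 : b0 + c1 = 0 := congrArg (fun M => M 1 1) h
      obtain ⟨r1, r2⟩ := zero a0 d1 ha0 hd1 q1
      obtain ⟨r3, r4⟩ := zero c0 b1 hc0 hb1 (by rw [add_comm]; exact q2)
      obtain ⟨r5, r6⟩ := zero d0 a1 hd0 ha1 (by rw [add_comm]; exact q3)
      obtain ⟨r7, r8⟩ := zero b0 c1 hb0 hc1 q4
      rw [hz, hz', ha, hb, hc, hd, r1, r2, r3, r4, r5, r6, r7, r8]
      simp
    intro z z' h
    have h2 := key (z - z') (by
      simp only [Prod.fst_sub, Prod.snd_sub, map_sub, sub_mul]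
      simp only at h
      rw [show ppi k z.1 - ppi k z'.1 + (ppi k z.2 * flipM - ppi k z'.2 * flipM) =
        (ppi k z.1 + ppi k z.2 * flipM) - (ppi k z'.1 + ppi k z'.2 * flipM) by abel, h, sub_self])
    exact sub_eq_zero.mp h2
  · intro M
    obtain ⟨a0, ha0, d1, hd1, e1, -⟩ := mem_decAlg' k (M 0 0)
    obtain ⟨c0, hc0, b1, hb1, e2, -⟩ := mem_decAlg' k (M 0 1)
    obtain ⟨d0, hd0, a1, ha1, e3, -⟩ := mem_decAlg' k (M 1 0)
    obtain ⟨b0, hb0, c1, hc1, e4, -⟩ := mem_decAlg' k (M 1 1)
    refine ⟨⟨iota k (a0 + a1) * (canF k).v + iota k (b0 + b1) * (1 - (canF k).v),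
      iota k (c0 + c1) * (canF k).v + iota k (d0 + d1) * (1 - (canF k).v)⟩, ?_⟩
    simp only
    rw [ppi_z k ha0 ha1 hb0 hb1, ppi_z k hc0 hc1 hd0 hd1, mul_flipM]
    ext i j
    fin_cases i <;> fin_cases j
    · simpa using e1.symm
    · simpa [add_comm] using e2.symm
    · simpa [add_comm] using e3.symm
    · simpa using e4.symm

/-- `t = 2 v - 1` -/
noncomputable def tt : LPA k E2m := 2 * (canF k).v - 1

lemma tt_tt : tt k * tt k = 1 := by
  unfold tt
  simp only [sub_mul, mul_sub, mul_one, one_mul, two_mul, add_mul, mul_add, (canF k).vv]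
  abel

lemma tt_A0 {a : LPA k E2} (h : a ∈ A0 k) : tt k * iota k a = iota k a * tt k := by
  rw [mem_A0] at h
  unfold tt
  simp only [sub_mul, mul_sub, mul_one, one_mul, two_mul, add_mul, mul_add, h]

lemma tt_A1 {a : LPA k E2} (h : a ∈ A1 k) : tt k * iota k a + iota k a * tt k = 0 := by
  rw [mem_A1] at h
  unfold tt
  simp only [sub_mul, mul_sub, mul_one, one_mul, two_mul, add_mul, mul_add, h]
  abel

lemma tt_conj (a : LPA k E2) : tt k * iota k a * tt k = iota k (theta k a) := by
  obtain ⟨b, hb, c, hc, h1, h2⟩ := mem_decAlg k a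
  have e1 : tt k * iota k b * tt k = iota k b := by
    rw [tt_A0 k hb, mul_assoc, tt_tt, mul_one]
  have e2 : tt k * iota k c * tt k + iota k c = 0 := by
    have e3 := congrArg (· * tt k) (tt_A1 k hc)
    simp only [add_mul, zero_mul] at e3
    rw [mul_assoc (iota k c), tt_tt, mul_one] at e3
    exact e3
  rw [h2, h1, map_add, map_sub, mul_add, add_mul, e1, eq_sub_iff_add_eq, add_assoc, e2, add_zero]

lemma iota_v'_inj {a : LPA k E2} (h : iota k a * (1 - (canF k).v) = 0) : a = 0 := by
  apply iota_v_inj k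
  have h1 := congrArg (sigma k) h
  rw [map_mul, map_sub, map_one, sigma_v, sigma_iota_apply, map_zero, sub_sub_cancel] at h1
  exact h1

lemma iota_tt_bij (h2 : (2 : k) ≠ 0) : Function.Bijective
    (fun z : LPA k E2 × LPA k E2 => iota k z.1 + iota k z.2 * tt k) := by
  constructor
  · have key : ∀ z : LPA k E2 × LPA k E2, iota k z.1 + iota k z.2 * tt k = 0 → z = 0 := by
      rintro ⟨a, b⟩ h
      simp only at h
      have e1 : iota k (a + b) * (canF k).v = 0 := by
        have h3 := congrArg (· * (canF k).v) h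
        simp only [tt, sub_mul, mul_sub, mul_one, one_mul, two_mul, add_mul, mul_add,
          mul_assoc, (canF k).vv, zero_mul] at h3
        rw [map_add, add_mul]
        rw [← h3]
        abel
      have e2 : iota k (a - b) * (1 - (canF k).v) = 0 := by
        have h3 := congrArg (· * (1 - (canF k).v)) h
        simp only [tt, sub_mul, mul_sub, mul_one, one_mul, two_mul, add_mul, mul_add,
          mul_assoc, (canF k).vv, zero_mul] at h3
        rw [map_sub, sub_mul, mul_sub, mul_sub, mul_one, mul_one]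
        simp only [sub_self, sub_zero, zero_sub, add_zero, zero_add] at h3
        rw [← h3]
        abel
      have f1 := iota_v_inj k e1
      have f2 := iota_v'_inj k e2
      have f3 : (2 : k) • a = 0 := by
        rw [two_smul]
        rw [show a + a = (a + b) + (a - b) by abel, f1, f2, add_zero]
      have f4 : a = 0 := (smul_eq_zero.mp f3).resolve_left h2
      have f5 : b = 0 := by rw [f4, zero_add] at f1; exact f1
      rw [f4, f5]
      rfl
    intro z z' h
    have h2 := key (z - z') (by
      simp only [Prod.fst_sub, Prod.snd_sub, map_sub, sub_mul]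
      simp only at h
      rw [show iota k z.1 - iota k z'.1 + (iota k z.2 * tt k - iota k z'.2 * tt k) =
        (iota k z.1 + iota k z.2 * tt k) - (iota k z'.1 + iota k z'.2 * tt k) by abel, h,
        sub_self])
    exact sub_eq_zero.mp h2
  · intro z
    obtain ⟨a, b, hz⟩ := mem_vAlg k z
    refine ⟨⟨(2 : k)⁻¹ • (a + b), (2 : k)⁻¹ • (a - b)⟩, ?_⟩
    simp only [map_smul, smul_mul_assoc]
    rw [← smul_add, inv_smul_eq_iff₀ h2, hz, two_smul, map_add, map_sub]
    simp only [tt, sub_mul, mul_sub, mul_one, one_mul, two_mul, add_mul, mul_add]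
    abel

/-- `A_0 → L_{2-}` -/
noncomputable def eHom : A0 k →ₐ[k] LPA k E2m where
  toFun a := kap' (canF k) * iota k a.1 * kap (canF k)
  map_one' := by
    rw [Subalgebra.coe_one, map_one, mul_one, kap'_kap]
  map_mul' a b := by
    have h := b.2
    rw [mem_A0] at h
    have hk : (canF k).v * kap (canF k) = kap (canF k) := by
      rw [← kap_kap', mul_assoc, kap'_kap, mul_one]
    rw [Subalgebra.coe_mul, map_mul]
    have : kap' (canF k) * iota k a.1 * kap (canF k) * (kap' (canF k) * iota k b.1 *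
        kap (canF k)) = kap' (canF k) * iota k a.1 * (kap (canF k) * kap' (canF k)) *
        iota k b.1 * kap (canF k) := by simp only [mul_assoc]
    rw [this, kap_kap', mul_assoc _ (canF k).v, h]
    simp only [mul_assoc, hk]
  map_zero' := by
    rw [Subalgebra.coe_zero, map_zero, mul_zero, zero_mul]
  map_add' a b := by
    rw [Subalgebra.coe_add, map_add, mul_add, add_mul]
  commutes' r := by
    change kap' (canF k) * iota k (algebraMap k _ r) * kap (canF k) = _
    rw [AlgHom.commutes, ← Algebra.commutes, mul_assoc, kap'_kap, mul_one]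

lemma eHom_bij : Function.Bijective (eHom k) := by
  have hk : (canF k).v * kap (canF k) = kap (canF k) := by
    rw [← kap_kap', mul_assoc, kap'_kap, mul_one]
  have hk' : kap' (canF k) * (canF k).v = kap' (canF k) := by
    rw [← kap_kap', ← mul_assoc, kap'_kap, one_mul]
  constructor
  · rw [injective_iff_map_eq_zero]
    rintro ⟨a, ha⟩ h
    change kap' (canF k) * iota k a * kap (canF k) = 0 at h
    have ha' := ha
    rw [mem_A0] at ha
    have h1 : kap (canF k) * (kap' (canF k) * iota k a * kap (canF k)) * kap' (canF k) =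
        iota k a * (canF k).v := by
      have : kap (canF k) * (kap' (canF k) * iota k a * kap (canF k)) * kap' (canF k) =
        (kap (canF k) * kap' (canF k)) * iota k a * (kap (canF k) * kap' (canF k)) := by
        simp only [mul_assoc]
      rw [this, kap_kap', ha, mul_assoc, (canF k).vv]
    rw [h, mul_zero, zero_mul] at h1
    have h2 := iota_v_inj k h1.symm
    exact Subtype.ext h2
  · intro z
    obtain ⟨a, b, hz⟩ := mem_vAlg k (kap (canF k) * z * kap' (canF k))
    obtain ⟨a0, ha0, a1, ha1, ha, -⟩ := mem_decAlg k a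
    refine ⟨⟨a0, ha0⟩, ?_⟩
    change kap' (canF k) * iota k a0 * kap (canF k) = z
    rw [mem_A0] at ha0
    rw [mem_A1] at ha1
    have h1 : kap (canF k) * z * kap' (canF k) = iota k a * (canF k).v := by
      have h2 := congrArg (· * (canF k).v) hz
      simp only [mul_assoc, add_mul, sub_mul, one_mul, hk', (canF k).vv, sub_self, mul_zero,
        add_zero] at h2
      rw [mul_assoc]
      exact h2
    have h3 : kap (canF k) * z * kap' (canF k) = iota k a0 * (canF k).v := by
      have h4 : (canF k).v * (kap (canF k) * z * kap' (canF k)) =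
          kap (canF k) * z * kap' (canF k) := by
        rw [← mul_assoc, ← mul_assoc, hk]
      rw [← h4, h1, ha, map_add, add_mul, mul_add, ← mul_assoc, ← mul_assoc, ha0, ha1]
      simp only [mul_assoc, sub_mul, one_mul, (canF k).vv, sub_self, mul_zero, add_zero]
    have h5 : kap' (canF k) * (kap (canF k) * z * kap' (canF k)) * kap (canF k) = z := by
      have : kap' (canF k) * (kap (canF k) * z * kap' (canF k)) * kap (canF k) =
        (kap' (canF k) * kap (canF k)) * z * (kap' (canF k) * kap (canF k)) := by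
        simp only [mul_assoc]
      rw [this, kap'_kap, one_mul, mul_one]
    rw [h3] at h5
    rw [← h5]
    simp only [mul_assoc, hk]

/-- `A_0 ≅ L_{2-}` -/
noncomputable def eEquiv : A0 k ≃ₐ[k] LPA k E2m := AlgEquiv.ofBijective (eHom k) (eHom_bij k)

end main

end Pool.Agent.Helper7.LL
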